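import Mathlib
import Pool.Agent.Lib.MP_9dd88f_nt.Defs

/-!
# Definitions for the double exponential lower bound `F k ≥ exp (exp (c k))`
-/

namespace Pool.Agent.Lib.MP_9dd88f_nt

open Finset

/-- The product of the `u i`, `i ∈ S`. -/
def sp {t : ℕ} (u : Fin t → ℕ) (S : Finset (Fin t)) : ℕ := ∏ i ∈ S, u i

/-- The number of pairs `(S, S')` of sets of indices whose products agree modulo `q`. -/
def coll {t : ℕ} (u : Fin t → ℕ) (q : ℕ) : ℕ :=
  ((univ : Finset (Finset (Fin t) × Finset (Fin t))).filter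
    (fun p => sp u p.1 ≡ sp u p.2 [MOD q])).card

/-- The modulus `q` is good: few coincidences of subset products. -/
def GoodMod {t : ℕ} (u : Fin t → ℕ) (q : ℕ) : Prop :=
  (coll u q : ℝ) ≤ 4 ^ t * (q : ℝ) ^ (-(3 / 4) : ℝ)

/-- `x` is odd, coprime to `P` and divisible by no element of `bad`. -/
def Clean (P : ℕ) (bad : Finset ℕ) (x : ℕ) : Prop :=
  Odd x ∧ x.Coprime P ∧ ∀ q ∈ bad, ¬ q ∣ x

end Pool.Agent.Lib.MP_9dd88f_nt
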