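import Mathlib
import Pool.Agent.Lib.MP_9dd88f_nt.DE.Defs

namespace Pool.Agent.Lib.MP_9dd88f_nt

open Finset Filter

private theorem cardPairsLe_small (t n : ℕ) (ht : 2 ≤ t) :
    ((univ : Finset (Finset (Fin t))).filter (fun A => A.card < n + 1)).card ≤ t ^ (n + 1) := by
  classical
  have h1 : (univ : Finset (Finset (Fin t))).filter (fun A => A.card < n + 1) ⊆
      {∅} ∪ (univ : Finset (Fin n → Fin t)).image (fun f => univ.image f) := by
    intro A hA
    rw [mem_filter] at hA
    rw [mem_union, mem_singleton, mem_image]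
    rcases A.eq_empty_or_nonempty with h | h
    · exact Or.inl h
    · right
      have hne : Nonempty A := h.to_subtype
      have hc : Fintype.card A ≤ Fintype.card (Fin n) := by
        rw [Fintype.card_coe, Fintype.card_fin]
        omega
      obtain ⟨e⟩ := Function.Embedding.nonempty_of_card_le hc
      have hs := Function.invFun_surjective e.injective
      refine ⟨fun i => (Function.invFun e i).1, mem_univ _, ?_⟩
      ext a
      rw [mem_image]
      constructor
      · rintro ⟨i, _, rfl⟩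
        exact (Function.invFun e i).2
      · intro ha
        obtain ⟨i, hi⟩ := hs ⟨a, ha⟩
        exact ⟨i, mem_univ _, by rw [hi]⟩
  have h2 := card_le_card h1
  have h3 := card_union_le ({∅} : Finset (Finset (Fin t)))
    ((univ : Finset (Fin n → Fin t)).image (fun f => univ.image f))
  have h4 : ((univ : Finset (Fin n → Fin t)).image (fun f => univ.image f)).card ≤ t ^ n := by
    refine le_trans card_image_le ?_
    rw [card_univ, Fintype.card_fun, Fintype.card_fin, Fintype.card_fin]
  rw [card_singleton] at h3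
  have h5 : 1 ≤ t ^ n := Nat.one_le_pow _ _ (by omega)
  have h6 : t ^ (n + 1) = t ^ n * t := pow_succ t n
  have h7 : t ^ n * 2 ≤ t ^ n * t := Nat.mul_le_mul_left _ ht
  omega

private theorem cardPairsLe_fibre (t : ℕ) (A : Finset (Fin t)) :
    ((univ : Finset (Finset (Fin t) × Finset (Fin t))).filter
      (fun p => p.1 \ p.2 = A)).card ≤ 3 ^ t := by
  classical
  have h0 : (3 : ℕ) ^ t = (univ : Finset (Fin t → Fin 3)).card := by
    rw [card_univ, Fintype.card_fun, Fintype.card_fin, Fintype.card_fin]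
  rw [h0]
  refine card_le_card_of_injOn
    (fun p i => if i ∈ p.2 then (if i ∈ p.1 then (0 : Fin 3) else 1) else 2)
    (fun p _ => mem_coe.2 (mem_univ _)) ?_
  rintro ⟨S, T⟩ hp ⟨S', T'⟩ hp' heq
  have hp1 : S \ T = A := (mem_filter.1 (mem_coe.1 hp)).2
  have hp2 : S' \ T' = A := (mem_filter.1 (mem_coe.1 hp')).2
  have h1 : ∀ i, (if i ∈ T then (if i ∈ S then (0 : Fin 3) else 1) else 2) =
      (if i ∈ T' then (if i ∈ S' then (0 : Fin 3) else 1) else 2) := fun i => congrFun heq i
  have hT : ∀ i, i ∈ T ↔ i ∈ T' := by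
    intro i
    have := h1 i
    by_cases a : i ∈ T <;> by_cases b : i ∈ T' <;> by_cases c : i ∈ S <;> by_cases d : i ∈ S' <;>
      simp_all
  have hS : ∀ i, i ∈ S ↔ i ∈ S' := by
    intro i
    have h2 := h1 i
    have h3 := hT i
    by_cases a : i ∈ T
    · have b : i ∈ T' := h3.1 a
      by_cases c : i ∈ S <;> by_cases d : i ∈ S' <;> simp_all
    · have b : i ∉ T' := fun h => a (h3.2 h)
      have e1 : i ∈ S ↔ i ∈ A := by
        rw [← hp1, Finset.mem_sdiff]
        exact ⟨fun h => ⟨h, a⟩, fun h => h.1⟩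
      have e2 : i ∈ S' ↔ i ∈ A := by
        rw [← hp2, Finset.mem_sdiff]
        exact ⟨fun h => ⟨h, b⟩, fun h => h.1⟩
      rw [e1, e2]
  rw [Prod.mk.injEq]
  exact ⟨Finset.ext hS, Finset.ext hT⟩

theorem card_pairs_le (t m : ℕ) (hm : 1 ≤ m) (ht : 2 ≤ t) :
    ((univ : Finset (Finset (Fin t) × Finset (Fin t))).filter
      (fun p => (p.1 \ p.2).card < m)).card ≤ t ^ m * 3 ^ t := by
  classical
  obtain ⟨n, rfl⟩ : ∃ n, m = n + 1 := ⟨m - 1, by omega⟩
  have h1 : (univ : Finset (Finset (Fin t) × Finset (Fin t))).filter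
      (fun p => (p.1 \ p.2).card < n + 1) ⊆
      ((univ : Finset (Finset (Fin t))).filter (fun A => A.card < n + 1)).biUnion
        (fun A => (univ : Finset (Finset (Fin t) × Finset (Fin t))).filter
          (fun p => p.1 \ p.2 = A)) := by
    intro p hp
    rw [mem_filter] at hp
    rw [mem_biUnion]
    exact ⟨p.1 \ p.2, mem_filter.2 ⟨mem_univ _, hp.2⟩, mem_filter.2 ⟨mem_univ _, rfl⟩⟩
  refine le_trans (card_le_card h1) (le_trans card_biUnion_le ?_)
  refine le_trans (sum_le_card_nsmul _ _ (3 ^ t) (fun A _ => cardPairsLe_fibre t A)) ?_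
  rw [smul_eq_mul]
  exact Nat.mul_le_mul_right _ (cardPairsLe_small t n ht)

end Pool.Agent.Lib.MP_9dd88f_nt
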