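import Mathlib
import Pool.Agent.Lib.MP_9dd88f_nt.DE.Defs

/-!
# Functions into primes with a given product (job DE5)

The list of the values of `v` is a permutation of `N.primeFactorsList`, so there are at most `m!` such functions.
-/

namespace Pool.Agent.Lib.MP_9dd88f_nt

open Finset Filter

theorem card_prod_eq_le (m N : ℕ) (s : Finset ℕ) (hs : ∀ p ∈ s, p.Prime) :
    ((Fintype.piFinset (fun _ : Fin m => s)).filter (fun v => ∏ i, v i = N)).card ≤
      m.factorial := by
  have hperm : ∀ v ∈ (Fintype.piFinset (fun _ : Fin m => s)).filter (fun v => ∏ i, v i = N),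
      (List.ofFn v).Perm N.primeFactorsList := by
    intro v hv
    rw [Finset.mem_filter, Fintype.mem_piFinset] at hv
    refine Nat.primeFactorsList_unique ?_ ?_
    · rw [List.prod_ofFn]
      exact hv.2
    · intro p hp
      rw [List.mem_ofFn] at hp
      obtain ⟨i, rfl⟩ := hp
      exact hs _ (hv.1 i)
  rcases ((Fintype.piFinset (fun _ : Fin m => s)).filter
    (fun v => ∏ i, v i = N)).eq_empty_or_nonempty with h | ⟨v0, hv0⟩
  · rw [h, Finset.card_empty]
    exact Nat.zero_le _
  · have hlen : N.primeFactorsList.length = m := by
      rw [← (hperm v0 hv0).length_eq, List.length_ofFn]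
    calc ((Fintype.piFinset (fun _ : Fin m => s)).filter (fun v => ∏ i, v i = N)).card
        ≤ (N.primeFactorsList.permutations.toFinset).card := by
          refine Finset.card_le_card_of_injOn (fun v => List.ofFn v) ?_ ?_
          · intro v hv
            rw [Finset.mem_coe, List.mem_toFinset, List.mem_permutations]
            exact hperm v hv
          · exact List.ofFn_injective.injOn
      _ ≤ N.primeFactorsList.permutations.length := List.toFinset_card_le _
      _ = m.factorial := by rw [List.length_permutations, hlen]

end Pool.Agent.Lib.MP_9dd88f_nt
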