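import Mathlib
import Pool.Agent.Lib.MP_9dd88f_nt.DE.Defs
import Pool.Agent.Lib.MP_9dd88f_nt.DE.CardProdEqLe

namespace Pool.Agent.Lib.MP_9dd88f_nt

open Finset Filter

private theorem cardProdModEqLe_class (B q r : ℕ) :
    ((Icc 1 B).filter (fun x => x ≡ r [MOD q])).card ≤ B / q + 1 := by
  have h : ((Icc 1 B).filter (fun x => x ≡ r [MOD q])).card ≤ (range (B / q + 1)).card := by
    refine card_le_card_of_injOn (fun x => x / q) ?_ ?_
    · intro x hx
      rw [Finset.mem_coe, mem_filter, mem_Icc] at hx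
      rw [Finset.mem_coe, mem_range, Nat.lt_succ_iff]
      exact Nat.div_le_div_right hx.1.2
    · intro x hx y hy hxy
      rw [Finset.mem_coe, mem_filter] at hx hy
      have h1 : x % q = y % q := hx.2.trans hy.2.symm
      have h2 : x / q = y / q := hxy
      rw [← Nat.div_add_mod x q, ← Nat.div_add_mod y q, h1, h2]
  rwa [card_range] at h

theorem card_prod_modEq_le (m q r Y : ℕ) (s : Finset ℕ) (hs : ∀ p ∈ s, p.Prime ∧ p ≤ Y)
    (hq : 0 < q) (hqY : q ≤ Y ^ m) :
    (((Fintype.piFinset (fun _ : Fin m => s)).filter (fun v => ∏ i, v i ≡ r [MOD q])).card : ℝ) ≤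
      m.factorial * (2 * (Y : ℝ) ^ m / q) := by
  classical
  have h1 : ((Fintype.piFinset (fun _ : Fin m => s)).filter
      (fun v => ∏ i, v i ≡ r [MOD q])).card ≤
      m.factorial * ((Icc 1 (Y ^ m)).filter (fun x => x ≡ r [MOD q])).card := by
    refine card_le_mul_card_image_of_maps_to (f := fun v : Fin m → ℕ => ∏ i, v i) ?_
      (m.factorial) ?_
    · intro v hv
      rw [mem_filter] at hv ⊢
      have hv1 : ∀ i, v i ∈ s := Fintype.mem_piFinset.1 hv.1
      refine ⟨mem_Icc.2 ⟨?_, ?_⟩, hv.2⟩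
      · exact Nat.succ_le_of_lt (prod_pos fun i _ => (hs _ (hv1 i)).1.pos)
      · calc ∏ i, v i ≤ ∏ _i : Fin m, Y := prod_le_prod' fun i _ => (hs _ (hv1 i)).2
          _ = Y ^ m := by simp
    · intro N _
      refine le_trans (card_le_card ?_) (card_prod_eq_le m N s fun p hp => (hs p hp).1)
      intro v hv
      rw [mem_filter, mem_filter] at hv
      rw [mem_filter]
      exact ⟨hv.1.1, hv.2⟩
  have h2 := cardProdModEqLe_class (Y ^ m) q r
  have hq0 : (0 : ℝ) < q := by exact_mod_cast hq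
  have h3 : (((Icc 1 (Y ^ m)).filter (fun x => x ≡ r [MOD q])).card : ℝ) ≤
      2 * (Y : ℝ) ^ m / q := by
    have h4 : (((Icc 1 (Y ^ m)).filter (fun x => x ≡ r [MOD q])).card : ℝ) ≤
        ((Y ^ m / q : ℕ) : ℝ) + 1 := by exact_mod_cast h2
    have h5 : ((Y ^ m / q : ℕ) : ℝ) ≤ (Y : ℝ) ^ m / q := by
      have := Nat.cast_div_le (α := ℝ) (m := Y ^ m) (n := q)
      rwa [Nat.cast_pow] at this
    have h6 : (1 : ℝ) ≤ (Y : ℝ) ^ m / q := by
      rw [le_div_iff₀ hq0, one_mul]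
      exact_mod_cast hqY
    have h7 : 2 * (Y : ℝ) ^ m / q = (Y : ℝ) ^ m / q + (Y : ℝ) ^ m / q := by ring
    linarith
  calc (((Fintype.piFinset (fun _ : Fin m => s)).filter
      (fun v => ∏ i, v i ≡ r [MOD q])).card : ℝ)
      ≤ (m.factorial : ℝ) *
        (((Icc 1 (Y ^ m)).filter (fun x => x ≡ r [MOD q])).card : ℝ) := by exact_mod_cast h1
    _ ≤ m.factorial * (2 * (Y : ℝ) ^ m / q) :=
        mul_le_mul_of_nonneg_left h3 (Nat.cast_nonneg _)

end Pool.Agent.Lib.MP_9dd88f_nt
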