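import Mathlib
import Pool.Agent.Lib.MP_9dd88f_nt.DE.Defs
import Pool.Agent.Lib.MP_9dd88f_nt.DE.CardProdModEqLe

namespace Pool.Agent.Lib.MP_9dd88f_nt

open Finset Filter

theorem count_fixed (t m q Y : ℕ) (s : Finset ℕ) (hs : ∀ p ∈ s, p.Prime ∧ p ≤ Y)
    (hq : 0 < q) (hqY : q ≤ Y ^ m) (S S' : Finset (Fin t)) (hm : m ≤ (S \ S').card) :
    (((Fintype.piFinset (fun _ : Fin t => s)).filter
      (fun u => (∀ i, (u i).Coprime q) ∧ sp u S ≡ sp u S' [MOD q])).card : ℝ) ≤
      (s.card : ℝ) ^ (t - m) * (m.factorial * (2 * (Y : ℝ) ^ m / q)) := by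
  classical
  obtain ⟨A, hAS, hAc⟩ := Finset.exists_subset_card_eq hm
  set U := (Fintype.piFinset (fun _ : Fin t => s)).filter
      (fun u => (∀ i, (u i).Coprime q) ∧ sp u S ≡ sp u S' [MOD q]) with hU
  set T : Finset (Fin t → ℕ) :=
    Fintype.piFinset (fun i : Fin t => if i ∈ A then {0} else s) with hT
  let f : (Fin t → ℕ) → (Fin t → ℕ) := fun u i => if i ∈ A then 0 else u i
  have hTc : T.card = s.card ^ (t - m) := by
    rw [hT, Fintype.card_piFinset]
    have h1 : ∀ i : Fin t, (if i ∈ A then ({0} : Finset ℕ) else s).card =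
        if i ∈ A then 1 else s.card := by
      intro i
      split_ifs <;> simp
    rw [prod_congr rfl fun i _ => h1 i, prod_ite, prod_const_one, one_mul, prod_const]
    have h2 : (univ.filter fun i : Fin t => ¬ i ∈ A) = Aᶜ := by
      ext i
      simp
    rw [h2, card_compl, Fintype.card_fin, hAc]
  have hmaps : Set.MapsTo f (U : Set (Fin t → ℕ)) (T : Set (Fin t → ℕ)) := by
    intro u hu
    rw [Finset.mem_coe, hU, mem_filter] at hu
    rw [Finset.mem_coe, hT, Fintype.mem_piFinset]
    intro i
    simp only [f]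
    split_ifs with h
    · exact mem_singleton_self 0
    · exact Fintype.mem_piFinset.1 hu.1 i
  have hfib : ∀ w ∈ T, ((U.filter (fun u => f u = w)).card : ℝ) ≤
      m.factorial * (2 * (Y : ℝ) ^ m / q) := by
    intro w _
    rcases (U.filter (fun u => f u = w)).eq_empty_or_nonempty with he | ⟨u0, hu0⟩
    · rw [he, card_empty, Nat.cast_zero]
      positivity
    rw [mem_filter] at hu0
    obtain ⟨hu0U, hu0w⟩ := hu0
    let e : A ≃ Fin m := A.equivFinOfCardEq hAc
    have hprod : ∀ u : Fin t → ℕ, ∏ j : Fin m, u (e.symm j) = ∏ i ∈ A, u i := by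
      intro u
      rw [Equiv.prod_comp e.symm (fun i : A => u i), Finset.prod_coe_sort A u]
    refine le_trans ?_ (card_prod_modEq_le m q (∏ i ∈ A, u0 i) Y s hs hq hqY)
    have hcard : (U.filter (fun u => f u = w)).card ≤
        ((Fintype.piFinset (fun _ : Fin m => s)).filter
          (fun v => ∏ i, v i ≡ ∏ i ∈ A, u0 i [MOD q])).card := by
      refine card_le_card_of_injOn (fun u j => u (e.symm j)) ?_ ?_
      · intro u hu
        rw [Finset.mem_coe, mem_filter] at hu
        obtain ⟨huU, huw⟩ := hu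
        have hout : ∀ i, i ∉ A → u i = u0 i := by
          intro i hi
          have h1 : f u i = f u0 i := by rw [huw, hu0w]
          simp only [f] at h1
          rwa [if_neg hi, if_neg hi] at h1
        rw [hU, mem_filter] at huU hu0U
        rw [Finset.mem_coe, mem_filter, Fintype.mem_piFinset]
        refine ⟨fun j => Fintype.mem_piFinset.1 huU.1 _, ?_⟩
        rw [hprod u]
        have hAS' : A ⊆ S := hAS.trans sdiff_subset
        have hs1 : ∀ v : Fin t → ℕ, sp v S = (∏ i ∈ A, v i) * ∏ i ∈ S \ A, v i := by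
          intro v
          unfold sp
          rw [mul_comm, prod_sdiff hAS']
        have hc : ∏ i ∈ S \ A, u i = ∏ i ∈ S \ A, u0 i :=
          prod_congr rfl fun i hi => hout i (mem_sdiff.1 hi).2
        have hc' : sp u S' = sp u0 S' := by
          unfold sp
          refine prod_congr rfl fun i hi => hout i fun hiA => ?_
          exact (mem_sdiff.1 (hAS hiA)).2 hi
        have h1 : (∏ i ∈ A, u i) * ∏ i ∈ S \ A, u0 i ≡
            (∏ i ∈ A, u0 i) * ∏ i ∈ S \ A, u0 i [MOD q] := by
          have h2 := huU.2.2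
          have h3 := hu0U.2.2
          rw [hs1 u, hc, hc'] at h2
          rw [hs1 u0] at h3
          exact h2.trans h3.symm
        have hcop : Nat.gcd q (∏ i ∈ S \ A, u0 i) = 1 := by
          have : Nat.Coprime (∏ i ∈ S \ A, u0 i) q :=
            Nat.Coprime.prod_left fun i _ => hu0U.2.1 i
          exact this.symm
        exact Nat.ModEq.cancel_right_of_coprime hcop h1
      · intro u hu u' hu' huu
        rw [Finset.mem_coe, mem_filter] at hu hu'
        funext i
        by_cases hi : i ∈ A
        · have h1 := congrFun huu (e ⟨i, hi⟩)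
          simpa using h1
        · have h1 : f u i = f u' i := by rw [hu.2, hu'.2]
          simp only [f] at h1
          rwa [if_neg hi, if_neg hi] at h1
    exact_mod_cast hcard
  have hsum := card_eq_sum_card_fiberwise hmaps
  rw [hsum, Nat.cast_sum]
  calc ∑ w ∈ T, ((U.filter (fun u => f u = w)).card : ℝ)
      ≤ ∑ _w ∈ T, (m.factorial * (2 * (Y : ℝ) ^ m / q) : ℝ) := sum_le_sum hfib
    _ = (s.card : ℝ) ^ (t - m) * (m.factorial * (2 * (Y : ℝ) ^ m / q)) := by
        rw [sum_const, nsmul_eq_mul, hTc, Nat.cast_pow]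

end Pool.Agent.Lib.MP_9dd88f_nt
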