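import Mathlib
import Pool.Agent.Lib.MP_9dd88f_nt.DE.Defs
import Pool.Agent.Lib.MP_9dd88f_nt.DE.CountFixed
import Pool.Agent.Lib.MP_9dd88f_nt.DE.CardPairsLe

/-!
# The average number of coincidences (job DE9)

Swap the sums: for a pair `(S, S')` with `m ≤ #(S \ S')` use `count_fixed`, there are at most
`4 ^ t` of them; for the other pairs (at most `t ^ m * 3 ^ t`, `card_pairs_le`) use the trivial
bound.
-/

namespace Pool.Agent.Lib.MP_9dd88f_nt

open Finset Filter

theorem coll_avg (t m q Y : ℕ) (s : Finset ℕ) (hs : ∀ p ∈ s, p.Prime ∧ p ≤ Y)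
    (hq : 0 < q) (hqY : q ≤ Y ^ m) (hm : 1 ≤ m) (ht : 2 ≤ t) :
    ∑ u ∈ (Fintype.piFinset (fun _ : Fin t => s)).filter (fun u => ∀ i, (u i).Coprime q),
      (coll u q : ℝ) ≤
      4 ^ t * ((s.card : ℝ) ^ (t - m) * (m.factorial * (2 * (Y : ℝ) ^ m / q))) +
        (s.card : ℝ) ^ t * ((t : ℝ) ^ m * 3 ^ t) := by
  classical
  obtain ⟨K, hK⟩ : ∃ K : ℝ, K = (s.card : ℝ) ^ (t - m) * (m.factorial * (2 * (Y : ℝ) ^ m / q)) :=
    ⟨_, rfl⟩
  have hK0 : 0 ≤ K := by rw [hK]; positivity
  obtain ⟨W, hW⟩ : ∃ W : Finset (Fin t → ℕ), W =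
      (Fintype.piFinset (fun _ : Fin t => s)).filter (fun u => ∀ i, (u i).Coprime q) := ⟨_, rfl⟩
  have hswap : ∑ u ∈ W, (coll u q : ℝ) = ∑ p : Finset (Fin t) × Finset (Fin t),
      ((W.filter (fun u => sp u p.1 ≡ sp u p.2 [MOD q])).card : ℝ) := by
    have h1 : ∑ u ∈ W, coll u q = ∑ p : Finset (Fin t) × Finset (Fin t),
        (W.filter (fun u => sp u p.1 ≡ sp u p.2 [MOD q])).card := by
      unfold coll
      simp only [Finset.card_filter]
      rw [Finset.sum_comm]
    exact_mod_cast h1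
  have hterm : ∀ p : Finset (Fin t) × Finset (Fin t),
      ((W.filter (fun u => sp u p.1 ≡ sp u p.2 [MOD q])).card : ℝ) ≤
        K + if (p.1 \ p.2).card < m then (s.card : ℝ) ^ t else 0 := by
    intro p
    by_cases hp : (p.1 \ p.2).card < m
    · rw [if_pos hp]
      have h1 : (W.filter (fun u => sp u p.1 ≡ sp u p.2 [MOD q])).card ≤ s.card ^ t := by
        calc (W.filter (fun u => sp u p.1 ≡ sp u p.2 [MOD q])).card ≤ W.card :=
              Finset.card_filter_le _ _
          _ ≤ (Fintype.piFinset (fun _ : Fin t => s)).card := by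
              rw [hW]
              exact Finset.card_filter_le _ _
          _ = s.card ^ t := by simp
      have h2 : ((W.filter (fun u => sp u p.1 ≡ sp u p.2 [MOD q])).card : ℝ) ≤
          (s.card : ℝ) ^ t := by exact_mod_cast h1
      linarith
    · rw [if_neg hp, add_zero, hK]
      have h1 := count_fixed t m q Y s hs hq hqY p.1 p.2 (not_lt.1 hp)
      rw [hW, Finset.filter_filter]
      exact h1
  rw [← hW, hswap, ← hK]
  have hpairs : (((univ : Finset (Finset (Fin t) × Finset (Fin t))).filter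
      (fun p => (p.1 \ p.2).card < m)).card : ℝ) ≤ (t : ℝ) ^ m * 3 ^ t := by
    exact_mod_cast card_pairs_le t m hm ht
  have huniv : ((univ : Finset (Finset (Fin t) × Finset (Fin t))).card : ℝ) = 4 ^ t := by
    rw [Finset.card_univ, Fintype.card_prod, Fintype.card_finset, Fintype.card_fin, ← mul_pow]
    norm_num
  calc ∑ p : Finset (Fin t) × Finset (Fin t),
        ((W.filter (fun u => sp u p.1 ≡ sp u p.2 [MOD q])).card : ℝ)
      ≤ ∑ p : Finset (Fin t) × Finset (Fin t),
          (K + if (p.1 \ p.2).card < m then (s.card : ℝ) ^ t else 0) :=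
        Finset.sum_le_sum fun p _ => hterm p
    _ = 4 ^ t * K + (((univ : Finset (Finset (Fin t) × Finset (Fin t))).filter
          (fun p => (p.1 \ p.2).card < m)).card : ℝ) * (s.card : ℝ) ^ t := by
        rw [Finset.sum_add_distrib, Finset.sum_const, nsmul_eq_mul, huniv, ← Finset.sum_filter,
          Finset.sum_const, nsmul_eq_mul]
    _ ≤ 4 ^ t * K + (s.card : ℝ) ^ t * ((t : ℝ) ^ m * 3 ^ t) := by
        have h0 : (0 : ℝ) ≤ (s.card : ℝ) ^ t := by positivity
        have h1 := mul_le_mul_of_nonneg_right hpairs h0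
        linarith

end Pool.Agent.Lib.MP_9dd88f_nt
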