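import Mathlib
import Pool.Agent.Lib.MP_9dd88f_nt.DE.Defs
import Pool.Agent.Lib.MP_9dd88f_nt.DE.CollAvg

/-!
# The average number of coincidences, simplified (job DE10)

`m` is the least `m ≥ 1` with `q ≤ Y ^ m`, so `Y ^ (m - 1) ≤ q` and `m ≤ t`.
-/

namespace Pool.Agent.Lib.MP_9dd88f_nt

open Finset Filter

private theorem avgBound_fact (t : ℕ) : ∀ n : ℕ, n + 1 ≤ t → (n + 1).factorial ≤ t ^ n := by
  intro n
  induction n with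
  | zero => intro _; simp
  | succ n ih =>
    intro h
    rw [Nat.factorial_succ, pow_succ, mul_comm]
    exact Nat.mul_le_mul (ih (by omega)) h

theorem avg_bound (t q Y X : ℕ) (s : Finset ℕ) (ρ : ℝ) (hs : ∀ p ∈ s, p.Prime ∧ p ≤ Y)
    (hρ : 1 ≤ ρ) (hYρ : (Y : ℝ) ≤ ρ * s.card) (htY : ((t : ℝ) * ρ) ^ 8 ≤ Y) (ht : 2 ≤ t)
    (hX : (X : ℝ) * (t * (3 / 4) ^ t) ≤ 1) (hXt : X ≤ 2 ^ t) (hq1 : 1 ≤ q) (hqX : q ≤ X) :
    ∑ u ∈ (Fintype.piFinset (fun _ : Fin t => s)).filter (fun u => ∀ i, (u i).Coprime q),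
      (coll u q : ℝ) ≤ (4 * (s.card : ℝ)) ^ t * (3 * ρ * (q : ℝ) ^ (-(7 / 8) : ℝ)) := by
  have ht0 : (2 : ℝ) ≤ (t : ℝ) := by exact_mod_cast ht
  have htρ : (2 : ℝ) ≤ (t : ℝ) * ρ := by nlinarith
  have hY2 : 2 ≤ Y := by
    have h1 : (2 : ℝ) ^ 8 ≤ ((t : ℝ) * ρ) ^ 8 := pow_le_pow_left₀ (by norm_num) htρ 8
    have h2 : (2 : ℝ) ≤ (Y : ℝ) := by
      have : (2 : ℝ) ≤ (2 : ℝ) ^ 8 := by norm_num
      linarith
    exact_mod_cast h2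
  have hex : ∃ n : ℕ, q ≤ Y ^ (n + 1) := by
    refine ⟨t, ?_⟩
    calc q ≤ 2 ^ t := hqX.trans hXt
      _ ≤ Y ^ t := Nat.pow_le_pow_left hY2 t
      _ ≤ Y ^ (t + 1) := Nat.pow_le_pow_right (by omega) (by omega)
  obtain ⟨n, hn1, hn2, hnt⟩ : ∃ n : ℕ, q ≤ Y ^ (n + 1) ∧ Y ^ n ≤ q ∧ n + 1 ≤ t := by
    classical
    refine ⟨Nat.find hex, Nat.find_spec hex, ?_, ?_⟩
    · rcases Nat.eq_zero_or_pos (Nat.find hex) with h | h
      · rw [h, pow_zero]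
        exact hq1
      · have h1 := Nat.find_min hex (m := Nat.find hex - 1) (by omega)
        rw [Nat.sub_add_cancel h] at h1
        exact (not_le.1 h1).le
    · have h1 : Nat.find hex ≤ t - 1 := by
        refine Nat.find_min' hex ?_
        rw [Nat.sub_add_cancel (by omega)]
        calc q ≤ 2 ^ t := hqX.trans hXt
          _ ≤ Y ^ t := Nat.pow_le_pow_left hY2 t
      omega
  have hq0 : (0 : ℝ) < (q : ℝ) := by exact_mod_cast hq1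
  have hX0 : (0 : ℝ) < (X : ℝ) := by exact_mod_cast (lt_of_lt_of_le hq1 hqX)
  have hqX' : (q : ℝ) ≤ X := by exact_mod_cast hqX
  obtain ⟨c, hc⟩ : ∃ c : ℝ, c = (s.card : ℝ) := ⟨_, rfl⟩
  have hc0 : 0 ≤ c := by rw [hc]; exact Nat.cast_nonneg _
  -- the power `q ^ (1/8)`
  have hpow : ((t : ℝ) * ρ) ^ n ≤ (q : ℝ) ^ (1 / 8 : ℝ) := by
    have h1 : (((t : ℝ) * ρ) ^ n) ^ 8 ≤ q := by
      calc (((t : ℝ) * ρ) ^ n) ^ 8 = (((t : ℝ) * ρ) ^ 8) ^ n := by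
            rw [← pow_mul, ← pow_mul, mul_comm n 8]
        _ ≤ (Y : ℝ) ^ n := pow_le_pow_left₀ (by positivity) htY n
        _ ≤ q := by exact_mod_cast hn2
    have h2 : ((((t : ℝ) * ρ) ^ n) ^ 8) ^ (1 / 8 : ℝ) = ((t : ℝ) * ρ) ^ n := by
      rw [← Real.rpow_natCast (((t : ℝ) * ρ) ^ n) 8, ← Real.rpow_mul (by positivity)]
      norm_num
    rw [← h2]
    exact Real.rpow_le_rpow (by positivity) h1 (by norm_num)
  have hq8 : (q : ℝ) ^ (1 / 8 : ℝ) * (q : ℝ)⁻¹ = (q : ℝ) ^ (-(7 / 8) : ℝ) := by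
    rw [← Real.rpow_neg_one, ← Real.rpow_add hq0]
    norm_num
  obtain ⟨E, hE⟩ : ∃ E : ℝ, E = (q : ℝ) ^ (-(7 / 8) : ℝ) := ⟨_, rfl⟩
  have hE0 : 0 ≤ E := by rw [hE]; positivity
  have hfac : ((n + 1).factorial : ℝ) ≤ (t : ℝ) ^ n := by exact_mod_cast avgBound_fact t n hnt
  have hY0 : (0 : ℝ) ≤ (Y : ℝ) := Nat.cast_nonneg _
  have hρ0 : 0 ≤ ρ := by linarith
  have hmain := coll_avg t (n + 1) q Y s hs hq1 hn1 (by omega) ht
  rw [← hc] at hmain hYρ ⊢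
  -- first term
  have hfirst : 4 ^ t * (c ^ (t - (n + 1)) * ((n + 1).factorial * (2 * (Y : ℝ) ^ (n + 1) / q))) ≤
      (4 * c) ^ t * (2 * ρ * E) := by
    have h1 : (Y : ℝ) ^ (n + 1) ≤ (ρ * c) ^ (n + 1) := pow_le_pow_left₀ hY0 hYρ _
    have h2 : ((n + 1).factorial : ℝ) * (2 * (Y : ℝ) ^ (n + 1) / q) ≤
        (t : ℝ) ^ n * (2 * (ρ * c) ^ (n + 1) / q) := by
      refine mul_le_mul hfac ?_ (by positivity) (by positivity)
      gcongr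
    have h3 : c ^ (t - (n + 1)) * c ^ (n + 1) = c ^ t := by
      rw [← pow_add]
      congr 1
      omega
    calc 4 ^ t * (c ^ (t - (n + 1)) * ((n + 1).factorial * (2 * (Y : ℝ) ^ (n + 1) / q)))
        ≤ 4 ^ t * (c ^ (t - (n + 1)) * ((t : ℝ) ^ n * (2 * (ρ * c) ^ (n + 1) / q))) := by
          gcongr
      _ = 4 ^ t * (c ^ (t - (n + 1)) * c ^ (n + 1)) * (2 * ρ * (((t : ℝ) * ρ) ^ n * (q : ℝ)⁻¹)) := by
          rw [mul_pow ρ c, mul_pow (t : ℝ) ρ, pow_succ ρ n, div_eq_mul_inv]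
          ring
      _ ≤ 4 ^ t * c ^ t * (2 * ρ * ((q : ℝ) ^ (1 / 8 : ℝ) * (q : ℝ)⁻¹)) := by
          rw [h3]
          gcongr
      _ = (4 * c) ^ t * (2 * ρ * E) := by rw [hq8, ← hE, mul_pow]
  -- second term
  have hsecond : c ^ t * ((t : ℝ) ^ (n + 1) * 3 ^ t) ≤ (4 * c) ^ t * (ρ * E) := by
    have h1 : (t : ℝ) * (3 / 4) ^ t ≤ (q : ℝ)⁻¹ := by
      have h2 : (t : ℝ) * (3 / 4) ^ t ≤ 1 / X := by
        rw [le_div_iff₀ hX0, mul_comm]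
        exact hX
      calc (t : ℝ) * (3 / 4) ^ t ≤ 1 / X := h2
        _ ≤ 1 / q := one_div_le_one_div_of_le hq0 hqX'
        _ = (q : ℝ)⁻¹ := one_div _
    have h2 : (t : ℝ) ^ n ≤ (q : ℝ) ^ (1 / 8 : ℝ) := by
      refine le_trans ?_ hpow
      refine pow_le_pow_left₀ (by positivity) ?_ n
      nlinarith
    have h3 : (3 : ℝ) ^ t = 4 ^ t * (3 / 4) ^ t := by
      rw [← mul_pow]
      norm_num
    calc c ^ t * ((t : ℝ) ^ (n + 1) * 3 ^ t)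
        = (4 * c) ^ t * ((t : ℝ) ^ n * ((t : ℝ) * (3 / 4) ^ t)) := by
          rw [h3, mul_pow, pow_succ]
          ring
      _ ≤ (4 * c) ^ t * ((q : ℝ) ^ (1 / 8 : ℝ) * (q : ℝ)⁻¹) := by gcongr
      _ = (4 * c) ^ t * (1 * E) := by rw [hq8, ← hE, one_mul]
      _ ≤ (4 * c) ^ t * (ρ * E) := by gcongr
  rw [← hE]
  calc ∑ u ∈ (Fintype.piFinset (fun _ : Fin t => s)).filter (fun u => ∀ i, (u i).Coprime q),
        (coll u q : ℝ) ≤ _ := hmain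
    _ ≤ (4 * c) ^ t * (2 * ρ * E) + (4 * c) ^ t * (ρ * E) := add_le_add hfirst hsecond
    _ = (4 * c) ^ t * (3 * ρ * E) := by ring

end Pool.Agent.Lib.MP_9dd88f_nt
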