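import Mathlib
import Pool.Agent.Lib.MP_9dd88f_nt.DE.Defs

/-! DE1: the bilinear bound. -/

namespace Pool.Agent.Lib.MP_9dd88f_nt

open Finset Filter

private theorem bilin_geom {x : ℕ} [NeZero x] (h : ZMod x) (a b : ℕ) :
    ∑ k ∈ range (addOrderOf h), ZMod.stdAddChar (k • (h * (a : ZMod x) - h * (b : ZMod x))) =
      if a ≡ b [MOD addOrderOf h] then (addOrderOf h : ℂ) else 0 := by
  have hsm : ∀ n : ℕ, h * (n : ZMod x) = n • h := fun n => by rw [nsmul_eq_mul, mul_comm]
  have hiff : h * (a : ZMod x) = h * (b : ZMod x) ↔ a ≡ b [MOD addOrderOf h] := by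
    rw [hsm, hsm]
    exact nsmul_eq_nsmul_iff_modEq
  have hz : ∀ k : ℕ, ZMod.stdAddChar (k • (h * (a : ZMod x) - h * (b : ZMod x))) =
      (ZMod.stdAddChar (h * (a : ZMod x) - h * (b : ZMod x))) ^ k :=
    fun k => AddChar.map_nsmul_eq_pow _ _ _
  simp only [hz]
  split_ifs with hab
  · rw [hiff.2 hab, sub_self, AddChar.map_zero_eq_one]
    simp
  · have hne : ZMod.stdAddChar (h * (a : ZMod x) - h * (b : ZMod x)) ≠ 1 := by
      intro h1
      rw [← AddChar.map_zero_eq_one (ZMod.stdAddChar (N := x))] at h1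
      exact hab (hiff.1 (sub_eq_zero.1 (ZMod.injective_stdAddChar h1)))
    have hpow : (ZMod.stdAddChar (h * (a : ZMod x) - h * (b : ZMod x))) ^ (addOrderOf h) = 1 := by
      rw [← AddChar.map_nsmul_eq_pow, smul_sub, ← mul_smul_comm, ← mul_smul_comm, nsmul_eq_mul,
        nsmul_eq_mul, ← mul_assoc, ← mul_assoc]
      have h2 : h * ((addOrderOf h : ℕ) : ZMod x) = 0 := by
        rw [hsm, addOrderOf_nsmul_eq_zero]
      rw [h2, zero_mul, zero_mul, sub_zero, AddChar.map_zero_eq_one]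
    rw [geom_sum_eq hne, hpow, sub_self, zero_div]

theorem bilin {t x : ℕ} [NeZero x] (u : Fin t → ℕ) (h : ZMod x) :
    ‖∑ p : Finset (Fin t) × Finset (Fin t),
      ZMod.stdAddChar (h * ((sp u p.1 * sp u p.2 : ℕ) : ZMod x))‖ ^ 2 ≤
      (addOrderOf h : ℝ) * (coll u (addOrderOf h) : ℝ) ^ 2 := by
  classical
  have hq0 : 0 < addOrderOf h := addOrderOf_pos h
  have hsm : ∀ n : ℕ, h * (n : ZMod x) = n • h := fun n => by rw [nsmul_eq_mul, mul_comm]
  have hmod : ∀ n : ℕ, n • h = (n % addOrderOf h) • h := fun n => by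
    rw [nsmul_eq_nsmul_iff_modEq]
    exact (Nat.mod_modEq _ _).symm
  let G : ℕ → ℂ := fun k => ∑ β : Finset (Fin t), ZMod.stdAddChar (k • (h * (sp u β : ZMod x)))
  let N : ℕ → ℕ := fun k =>
    ((univ : Finset (Finset (Fin t))).filter (fun α => sp u α % addOrderOf h = k)).card
  have h1 : ∑ p : Finset (Fin t) × Finset (Fin t),
      ZMod.stdAddChar (h * ((sp u p.1 * sp u p.2 : ℕ) : ZMod x)) =
      ∑ α : Finset (Fin t), G (sp u α % addOrderOf h) := by
    rw [Fintype.sum_prod_type]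
    refine Finset.sum_congr rfl fun α _ => ?_
    refine Finset.sum_congr rfl fun β _ => ?_
    have h2 : h * ((sp u α * sp u β : ℕ) : ZMod x) =
        (sp u α % addOrderOf h) • (h * (sp u β : ZMod x)) := by
      rw [← smul_mul_assoc, ← hmod, ← hsm, Nat.cast_mul, mul_assoc]
    simp only [h2]
  have h2 : ∑ α : Finset (Fin t), G (sp u α % addOrderOf h) =
      ∑ k ∈ range (addOrderOf h), (N k : ℂ) * G k := by
    rw [← Finset.sum_fiberwise_of_maps_to (s := (univ : Finset (Finset (Fin t))))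
      (t := range (addOrderOf h)) (g := fun α => sp u α % addOrderOf h)
      (fun α _ => mem_range.2 (Nat.mod_lt _ hq0))]
    refine Finset.sum_congr rfl fun k _ => ?_
    rw [Finset.sum_congr rfl (g := fun _ => G k)]
    · rw [Finset.sum_const, nsmul_eq_mul]
    · intro α hα
      rw [(Finset.mem_filter.1 hα).2]
  have hN : ∑ k ∈ range (addOrderOf h), (N k : ℝ) ^ 2 = (coll u (addOrderOf h) : ℝ) := by
    have h3 : coll u (addOrderOf h) = ∑ k ∈ range (addOrderOf h), N k ^ 2 := by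
      unfold coll
      rw [Finset.card_eq_sum_card_fiberwise (f := fun p => sp u p.1 % addOrderOf h)
        (t := range (addOrderOf h)) (fun p _ => mem_range.2 (Nat.mod_lt _ hq0))]
      refine Finset.sum_congr rfl fun k _ => ?_
      rw [sq, ← Finset.card_product]
      congr 1
      ext p
      simp only [Finset.mem_filter, Finset.mem_univ, true_and, Finset.mem_product]
      constructor
      · rintro ⟨h4, h5⟩
        have h6 : sp u p.2 % addOrderOf h = sp u p.1 % addOrderOf h := h4.symm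
        exact ⟨h5, h6.trans h5⟩
      · rintro ⟨h4, h5⟩
        have h6 : sp u p.1 % addOrderOf h = sp u p.2 % addOrderOf h := h4.trans h5.symm
        exact ⟨h6, h4⟩
    rw [h3]
    push_cast
    rfl
  have hG : ∑ k ∈ range (addOrderOf h), ‖G k‖ ^ 2 =
      (addOrderOf h : ℝ) * (coll u (addOrderOf h) : ℝ) := by
    have h3 : ∀ k, ((‖G k‖ ^ 2 : ℝ) : ℂ) = ∑ p : Finset (Fin t) × Finset (Fin t),
        ZMod.stdAddChar (k • (h * (sp u p.1 : ZMod x) - h * (sp u p.2 : ZMod x))) := by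
      intro k
      rw [Complex.ofReal_pow, ← Complex.mul_conj', map_sum, Finset.sum_mul_sum,
        Fintype.sum_prod_type]
      refine Finset.sum_congr rfl fun α _ => ?_
      refine Finset.sum_congr rfl fun β _ => ?_
      rw [← AddChar.map_neg_eq_conj, ← AddChar.map_add_eq_mul, smul_sub, sub_eq_add_neg]
    have h4 : ((∑ k ∈ range (addOrderOf h), ‖G k‖ ^ 2 : ℝ) : ℂ) =
        ((addOrderOf h : ℝ) * (coll u (addOrderOf h) : ℝ) : ℝ) := by
      rw [Complex.ofReal_sum]
      simp only [h3]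
      rw [Finset.sum_comm]
      simp only [bilin_geom]
      rw [← Finset.sum_filter, Finset.sum_const, nsmul_eq_mul]
      unfold coll
      push_cast
      ring
    exact_mod_cast h4
  rw [h1, h2]
  have h5 : ‖∑ k ∈ range (addOrderOf h), (N k : ℂ) * G k‖ ≤
      ∑ k ∈ range (addOrderOf h), (N k : ℝ) * ‖G k‖ := by
    refine (norm_sum_le _ _).trans (le_of_eq (Finset.sum_congr rfl fun k _ => ?_))
    rw [norm_mul, Complex.norm_natCast]
  have h6 : (∑ k ∈ range (addOrderOf h), (N k : ℝ) * ‖G k‖) ^ 2 ≤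
      (∑ k ∈ range (addOrderOf h), (N k : ℝ) ^ 2) * ∑ k ∈ range (addOrderOf h), ‖G k‖ ^ 2 :=
    Finset.sum_mul_sq_le_sq_mul_sq _ _ _
  calc ‖∑ k ∈ range (addOrderOf h), (N k : ℂ) * G k‖ ^ 2
      ≤ (∑ k ∈ range (addOrderOf h), (N k : ℝ) * ‖G k‖) ^ 2 :=
        pow_le_pow_left₀ (norm_nonneg _) h5 2
    _ ≤ _ := h6
    _ = (addOrderOf h : ℝ) * (coll u (addOrderOf h) : ℝ) ^ 2 := by
        rw [hN, hG]; ring

end Pool.Agent.Lib.MP_9dd88f_nt
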