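import Mathlib
import Pool.Agent.Lib.MP_9dd88f_nt.DE.Defs

/-!
# Terms of an arithmetic progression in a residue class (DE14)
-/

namespace Pool.Agent.Lib.MP_9dd88f_nt

open Finset Filter

theorem card_AP (Z q c x0 a : ℕ) (hq : 0 < q) (hc : c.Coprime q) :
    (((range Z).filter (fun z => x0 + c * z ≡ a [MOD q])).card : ℝ) ≤ (Z : ℝ) / q + 1 := by
  have hmod : ∀ z ∈ (range Z).filter (fun z => x0 + c * z ≡ a [MOD q]),
      ∀ z' ∈ (range Z).filter (fun z => x0 + c * z ≡ a [MOD q]), z % q = z' % q := by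
    intro z hz z' hz'
    have h1 : x0 + c * z ≡ x0 + c * z' [MOD q] :=
      (mem_filter.1 hz).2.trans (mem_filter.1 hz').2.symm
    have h2 : c * z ≡ c * z' [MOD q] := Nat.ModEq.add_left_cancel' x0 h1
    exact Nat.ModEq.cancel_left_of_coprime hc.symm h2
  have hcard : ((range Z).filter (fun z => x0 + c * z ≡ a [MOD q])).card ≤ Z / q + 1 := by
    have h1 : ((range Z).filter (fun z => x0 + c * z ≡ a [MOD q])).card ≤
        (range (Z / q + 1)).card := by
      refine card_le_card_of_injOn (fun z => z / q) ?_ ?_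
      · intro z hz
        have h2 : z < Z := mem_range.1 (mem_filter.1 hz).1
        exact mem_coe.2 (mem_range.2 (Nat.lt_succ_of_le (Nat.div_le_div_right h2.le)))
      · intro z hz z' hz' h
        have h3 := hmod z hz z' hz'
        have h4 : z / q = z' / q := h
        rw [← Nat.mod_add_div z q, ← Nat.mod_add_div z' q, h3, h4]
    rwa [card_range] at h1
  calc (((range Z).filter (fun z => x0 + c * z ≡ a [MOD q])).card : ℝ)
      ≤ ((Z / q + 1 : ℕ) : ℝ) := Nat.cast_le.2 hcard
    _ = ((Z / q : ℕ) : ℝ) + 1 := by push_cast; rfl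
    _ ≤ (Z : ℝ) / q + 1 := add_le_add Nat.cast_div_le le_rfl

end Pool.Agent.Lib.MP_9dd88f_nt
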