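import Mathlib
import Pool.Agent.Lib.MP_9dd88f_nt.Chain
import Pool.Agent.Lib.MP_9dd88f_nt.DE.Defs

/-!
# Adding `12 (L + 1)` denominators to a chain (job DE19)
-/

namespace Pool.Agent.Lib.MP_9dd88f_nt

open Finset Filter

private theorem chainDigits_step {t M M' : ℕ} (h : Chain t M) (R : Finset ℕ)
    (hR : ∀ x ∈ R, M < x ∧ x < M') (hM : M < M')
    (hs : (1 : ℚ) / M = ∑ x ∈ R, (1 : ℚ) / x + 1 / M') : Chain (t + R.card) M' := by
  classical
  obtain ⟨S, hS, hlt, hsum⟩ := h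
  have hdisj : Disjoint S R := by
    rw [Finset.disjoint_left]
    intro x hx hx'
    exact lt_asymm (hlt x hx).2 (hR x hx').1
  refine ⟨S ∪ R, ?_, ?_, ?_⟩
  · rw [Finset.card_union_of_disjoint hdisj, hS]
  · intro n hn
    rcases Finset.mem_union.mp hn with hn | hn
    · exact ⟨(hlt n hn).1, (hlt n hn).2.trans hM⟩
    · exact ⟨(Nat.zero_le _).trans_lt (hR n hn).1, (hR n hn).2⟩
  · rw [Finset.sum_union hdisj]
    linarith

/-- the new denominators -/
private def chainDigits_f (w M2 Me b β : ℕ) (a : ℕ → ℕ) (D : ℕ → Fin 12 → ℕ) (p : ℕ × Fin 12) : ℕ :=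
  w / 2 ^ (β * p.1 + (p.2 : ℕ)) * (M2 ^ 2 / D p.1 p.2 * Me * a p.1) * b

private theorem chainDigits_exp {β L : ℕ} (hβ : 12 ≤ β) {l : ℕ} (hl : l ≤ L) (i : Fin 12) :
    β * l + (i : ℕ) ≤ β * (L + 1) := by
  have h1 : β * l ≤ β * L := Nat.mul_le_mul_left _ hl
  have h2 := i.isLt
  rw [Nat.mul_add]
  omega

private theorem chainDigits_inj {β : ℕ} (hβ : 12 ≤ β) {l l' : ℕ} {i i' : Fin 12}
    (h : β * l + (i : ℕ) = β * l' + (i' : ℕ)) : l = l' ∧ i = i' := by
  have h1 := i.isLt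
  have h2 := i'.isLt
  have hl : l = l' := by
    rcases lt_trichotomy l l' with h3 | h3 | h3
    · have h4 : β * (l + 1) ≤ β * l' := Nat.mul_le_mul_left _ h3
      rw [Nat.mul_add] at h4
      omega
    · exact h3
    · have h4 : β * (l' + 1) ≤ β * l := Nat.mul_le_mul_left _ h3
      rw [Nat.mul_add] at h4
      omega
  subst hl
  exact ⟨rfl, Fin.ext (by omega)⟩

theorem chain_digits {τ w M2 Me b n β L : ℕ} (h : Chain τ w) (x a : ℕ → ℕ) (D : ℕ → Fin 12 → ℕ)
    (hβ : 12 ≤ β) (hw : 2 ^ (β * (L + 1)) ∣ w) (hw0 : 0 < w) (hM2 : Odd M2) (hMe : Odd Me)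
    (hn : M2 ^ 2 * Me * b = w + n) (hn0 : 0 < n) (hnw : n ≤ w)
    (hx : n = ∑ l ∈ range (L + 1), x l * (2 ^ β) ^ l) (hxo : ∀ l ≤ L, Odd (x l))
    (hD : ∀ l ≤ L, ∀ i, 0 < D l i ∧ D l i ∣ M2 ^ 2)
    (hsum : ∀ l ≤ L, x l * a l = ∑ i : Fin 12, 2 ^ (i : ℕ) * D l i) :
    ∃ M, 0 < M ∧ Me ∣ M ∧ Chain (τ + 12 * (L + 1)) M := by
  classical
  have hb0 : 0 < b := by
    rcases Nat.eq_zero_or_pos b with h0 | h0
    · rw [h0, mul_zero] at hn
      omega
    · exact h0
  have hM20 : 0 < M2 := hM2.pos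
  have hMe0 : 0 < Me := hMe.pos
  -- parities
  have hDodd : ∀ l ≤ L, ∀ i, Odd (D l i) := fun l hl i => Odd.of_dvd_nat (hM2.pow) (hD l hl i).2
  have haodd : ∀ l ≤ L, Odd (a l) := by
    intro l hl
    have h1 : Odd (x l * a l) := by
      rw [hsum l hl, Fin.sum_univ_succ]
      refine Odd.add_even ?_ ?_
      · simpa using hDodd l hl 0
      · refine Finset.even_sum _ fun i _ => ?_
        refine Even.mul_right ?_ _
        rw [Fin.val_succ, pow_succ]
        exact Even.mul_left even_two _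
    exact (Nat.odd_mul.1 h1).2
  have hqodd : ∀ l ≤ L, ∀ i, Odd (M2 ^ 2 / D l i) := fun l hl i =>
    Odd.of_dvd_nat (hM2.pow) (Nat.div_dvd_of_dvd (hD l hl i).2)
  have hodd : ∀ l ≤ L, ∀ i, Odd (M2 ^ 2 / D l i * Me * a l) := fun l hl i =>
    ((hqodd l hl i).mul hMe).mul (haodd l hl)
  have hdw : ∀ l ≤ L, ∀ i : Fin 12, 2 ^ (β * l + (i : ℕ)) ∣ w := fun l hl i =>
    (pow_dvd_pow 2 (chainDigits_exp hβ hl i)).trans hw
  set f := chainDigits_f w M2 Me b β a D with hf
  have hfmul : ∀ l ≤ L, ∀ i : Fin 12, f (l, i) * 2 ^ (β * l + (i : ℕ)) =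
      w * b * (M2 ^ 2 / D l i * Me * a l) := by
    intro l hl i
    obtain ⟨c, hc⟩ := hdw l hl i
    have h1 : w / 2 ^ (β * l + (i : ℕ)) = c := by
      rw [hc]
      exact Nat.mul_div_cancel_left _ (by positivity)
    rw [hf]
    unfold chainDigits_f
    simp only
    rw [h1]
    conv_rhs => rw [hc]
    ring
  have hf0 : ∀ l ≤ L, ∀ i : Fin 12, 0 < f (l, i) := by
    intro l hl i
    have h1 := hfmul l hl i
    have h2 : 0 < w * b * (M2 ^ 2 / D l i * Me * a l) :=
      Nat.mul_pos (Nat.mul_pos hw0 hb0) (hodd l hl i).pos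
    rw [← h1] at h2
    exact Nat.pos_of_mul_pos_right h2
  set J : Finset (ℕ × Fin 12) := range (L + 1) ×ˢ univ with hJ
  have hmemJ : ∀ p ∈ J, p.1 ≤ L := by
    intro p hp
    rw [hJ, mem_product, mem_range] at hp
    omega
  have hinj : Set.InjOn f (J : Set (ℕ × Fin 12)) := by
    have aux : ∀ p ∈ J, ∀ p' ∈ J, f p = f p' →
        ¬ β * p.1 + (p.2 : ℕ) < β * p'.1 + (p'.2 : ℕ) := by
      rintro ⟨l, i⟩ hp ⟨l', i'⟩ hp' heq hlt
      have hl := hmemJ _ hp
      have hl' := hmemJ _ hp'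
      simp only at hl hl' hlt
      obtain ⟨e, he⟩ := Nat.exists_eq_add_of_lt hlt
      have h1 := hfmul l hl i
      have h2 := hfmul l' hl' i'
      rw [← heq, he, add_assoc, pow_add, ← mul_assoc, h1, mul_assoc] at h2
      have h3 := Nat.eq_of_mul_eq_mul_left (Nat.mul_pos hw0 hb0) h2
      have h4 := hodd l' hl' i'
      rw [← h3, pow_succ] at h4
      have h5 := (Nat.odd_mul.1 (Nat.odd_mul.1 h4).2).2
      exact absurd h5 (by decide)
    intro p hp p' hp' heq
    have h1 := aux p hp p' hp' heq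
    have h2 := aux p' hp' p hp heq.symm
    have h3 : β * p.1 + (p.2 : ℕ) = β * p'.1 + (p'.2 : ℕ) := by omega
    obtain ⟨h4, h5⟩ := chainDigits_inj hβ h3
    exact Prod.ext h4 h5
  set B := J.image f with hB
  have hJcard : J.card = 12 * (L + 1) := by
    rw [hJ, card_product, card_range, card_univ, Fintype.card_fin]
    ring
  have hBcard : B.card = 12 * (L + 1) := by
    rw [hB, card_image_of_injOn hinj, hJcard]
  -- the sum of the reciprocals
  have hwq : (0 : ℚ) < w := by exact_mod_cast hw0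
  have hbq : (0 : ℚ) < b := by exact_mod_cast hb0
  have hnq : (0 : ℚ) < n := by exact_mod_cast hn0
  have hM2q : (0 : ℚ) < M2 := by exact_mod_cast hM20
  have hMeq : (0 : ℚ) < Me := by exact_mod_cast hMe0
  have hnq2 : (M2 : ℚ) ^ 2 * Me * b = w + n := by exact_mod_cast hn
  have hinv : ∀ l ≤ L, ∀ i : Fin 12, (1 : ℚ) / f (l, i) =
      (2 ^ β) ^ l / (w * (w + n) * a l) * (2 ^ (i : ℕ) * D l i) := by
    intro l hl i
    have h1 : (f (l, i) : ℚ) * 2 ^ (β * l + (i : ℕ)) =
        w * b * ((M2 ^ 2 / D l i : ℕ) * Me * a l) := by exact_mod_cast hfmul l hl i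
    have hDq : (0 : ℚ) < D l i := by exact_mod_cast (hD l hl i).1
    have haq : (0 : ℚ) < a l := by exact_mod_cast (haodd l hl).pos
    have hfq : (0 : ℚ) < f (l, i) := by exact_mod_cast hf0 l hl i
    rw [Nat.cast_div (hD l hl i).2 hDq.ne'] at h1
    rw [← hnq2]
    have h2 : (2 : ℚ) ^ (β * l + (i : ℕ)) = (2 ^ β) ^ l * 2 ^ (i : ℕ) := by
      rw [pow_add, pow_mul]
    rw [h2] at h1
    push_cast at h1
    have h3 : (f (l, i) : ℚ) * ((2 ^ β) ^ l * 2 ^ (i : ℕ)) * D l i =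
        w * b * (M2 ^ 2 * Me * a l) := by
      rw [h1]
      field_simp
    field_simp
    linear_combination -h3
  have hsumJ : ∑ p ∈ J, (1 : ℚ) / f p = n / (w * (w + n)) := by
    rw [hJ, sum_product]
    have h1 : ∀ l ∈ range (L + 1), ∑ i : Fin 12, (1 : ℚ) / f (l, i) =
        (x l * (2 ^ β) ^ l) / (w * (w + n)) := by
      intro l hl
      have hl' : l ≤ L := by
        rw [mem_range] at hl
        omega
      have haq : (0 : ℚ) < a l := by exact_mod_cast (haodd l hl').pos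
      rw [sum_congr rfl fun i _ => hinv l hl' i, ← mul_sum]
      have h2 : (∑ i : Fin 12, (2 : ℚ) ^ (i : ℕ) * D l i) = x l * a l := by
        exact_mod_cast (hsum l hl').symm
      rw [h2]
      field_simp
    rw [sum_congr rfl h1, ← sum_div]
    congr 1
    rw [hx]
    push_cast
    rfl
  have hlt : ∀ p ∈ J, w + n < f p := by
    intro p hp
    have hpL := hmemJ p hp
    have hfq : (0 : ℚ) < f p := by exact_mod_cast hf0 p.1 hpL p.2
    obtain ⟨j, hj⟩ : ∃ j : Fin 12, j ≠ p.2 := exists_ne p.2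
    have hjJ : (p.1, j) ∈ J := by
      rw [hJ, mem_product] at hp ⊢
      exact ⟨hp.1, mem_univ _⟩
    have h1 : (1 : ℚ) / f p < ∑ p ∈ J, (1 : ℚ) / f p := by
      refine single_lt_sum (f := fun p => (1 : ℚ) / f p) (j := (p.1, j)) ?_ hp hjJ ?_ ?_
      · intro h
        exact hj (congrArg Prod.snd h)
      · have : (0 : ℚ) < f (p.1, j) := by exact_mod_cast hf0 p.1 hpL j
        positivity
      · intro k _ _
        positivity
    rw [hsumJ] at h1
    have h2 : (n : ℚ) / (w * (w + n)) ≤ 1 / (w + n) := by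
      rw [div_le_div_iff₀ (by positivity) (by positivity), one_mul]
      have h3 : (n : ℚ) ≤ w := by exact_mod_cast hnw
      have h4 : (0 : ℚ) < w + n := by positivity
      nlinarith
    have h3 := (one_div_lt_one_div hfq (by positivity)).1 (h1.trans_le h2)
    exact_mod_cast h3
  have hBlt : ∀ y ∈ B, w + n < y := by
    intro y hy
    rw [hB, mem_image] at hy
    obtain ⟨p, hp, rfl⟩ := hy
    exact hlt p hp
  have hBne : B.Nonempty := by
    rw [← card_pos, hBcard]
    omega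
  set M := B.max' hBne with hM
  have hMB : M ∈ B := max'_mem _ _
  have hsumB : ∑ y ∈ B.erase M, (1 : ℚ) / y + 1 / M = n / (w * (w + n)) := by
    rw [← hsumJ, ← sum_image (g := f) (f := fun y : ℕ => (1 : ℚ) / y) hinj, ← hB,
      ← sum_erase_add _ _ hMB]
  have hnotin : w + n ∉ B.erase M := fun h => lt_irrefl _ (hBlt _ (mem_of_mem_erase h))
  refine ⟨M, ?_, ?_, ?_⟩
  · have := hBlt M hMB
    omega
  · rw [hB, mem_image] at hMB
    obtain ⟨p, -, hp⟩ := hMB
    rw [← hp, hf]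
    unfold chainDigits_f
    refine Dvd.dvd.mul_right (Dvd.dvd.mul_left ?_ _) _
    exact Dvd.dvd.mul_right (Dvd.intro_left _ rfl) _
  · have hRcard : (insert (w + n) (B.erase M)).card = 12 * (L + 1) := by
      rw [card_insert_of_notMem hnotin, card_erase_of_mem hMB, hBcard]
      omega
    rw [← hRcard]
    refine chainDigits_step h _ ?_ ?_ ?_
    · intro y hy
      rw [mem_insert] at hy
      rcases hy with rfl | hy
      · exact ⟨by omega, hBlt M hMB⟩
      · refine ⟨?_, ?_⟩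
        · have := hBlt y (mem_of_mem_erase hy)
          omega
        · exact lt_of_le_of_ne (le_max' _ _ (mem_of_mem_erase hy)) (ne_of_mem_erase hy)
    · have := hBlt M hMB
      omega
    · rw [sum_insert hnotin, add_assoc, hsumB]
      push_cast
      field_simp

end Pool.Agent.Lib.MP_9dd88f_nt
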