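import Mathlib
import Pool.Agent.Lib.MP_9dd88f_nt.DE.Defs

namespace Pool.Agent.Lib.MP_9dd88f_nt

open Finset Filter

theorem crt_start (β P n : ℕ) (hP : Odd P) (hsf : Squarefree P) (hn : Odd n) (_hβ : 1 ≤ β) :
    ∃ x0, x0 < 2 * 2 ^ β * P ∧ x0 ≡ n + 2 ^ β [MOD 2 * 2 ^ β] ∧
      ∀ q, q.Prime → q ∣ P → ¬ q ∣ x0 ∧ ¬ x0 ≡ n [MOD q] := by
  have hP0 : P ≠ 0 := hsf.ne_zero
  have hn1 : 1 ≤ n := hn.pos
  obtain ⟨h, hh⟩ := Nat.gcd_dvd_left P (n - 1)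
  set g := P.gcd (n - 1) with hg
  have hgh : g.Coprime h := by
    have : Squarefree (g * h) := hh ▸ hsf
    exact (Nat.squarefree_mul_iff.1 this).1
  obtain ⟨x1, h1a, h1b⟩ := Nat.chineseRemainder hgh 2 1
  have hcop : (2 * 2 ^ β).Coprime P := by
    have : (2 : ℕ).Coprime P := (Nat.coprime_two_left).2 hP
    exact Nat.Coprime.mul_left this (Nat.Coprime.pow_left _ this)
  have hm0 : 2 * 2 ^ β ≠ 0 := by positivity
  have hlt := Nat.chineseRemainder_lt_mul hcop (n + 2 ^ β) x1 hm0 hP0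
  have h0a := (Nat.chineseRemainder hcop (n + 2 ^ β) x1).2.1
  have h0b := (Nat.chineseRemainder hcop (n + 2 ^ β) x1).2.2
  generalize ((Nat.chineseRemainder hcop (n + 2 ^ β) x1 : ℕ)) = x0 at hlt h0a h0b
  refine ⟨x0, hlt, h0a, ?_⟩
  intro q hq hqP
  have hx01 : x0 ≡ x1 [MOD q] := h0b.of_dvd hqP
  have hq2 : q ≠ 2 := by
    rintro rfl
    exact (Nat.not_even_iff_odd.2 hP) (even_iff_two_dvd.2 hqP)
  have hq3 : 2 < q := lt_of_le_of_ne hq.two_le (Ne.symm hq2)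
  have hqgh : q ∣ g * h := hh ▸ hqP
  by_cases hqg : q ∣ g
  · have hx2 : x0 ≡ 2 [MOD q] := hx01.trans (h1a.of_dvd hqg)
    have hqn : q ∣ n - 1 := hqg.trans (Nat.gcd_dvd_right P (n - 1))
    have hn1q : 1 ≡ n [MOD q] := (Nat.modEq_iff_dvd' hn1).2 hqn
    constructor
    · intro hd
      have h2 : (2 : ℕ) ≡ 0 [MOD q] := hx2.symm.trans ((Nat.modEq_zero_iff_dvd).2 hd)
      have := Nat.le_of_dvd (by norm_num) ((Nat.modEq_zero_iff_dvd).1 h2)
      omega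
    · intro hd
      have h21 : (1 : ℕ) ≡ 2 [MOD q] := (hn1q.trans hd.symm).trans hx2
      have := (Nat.modEq_iff_dvd' (by norm_num)).1 h21
      have := Nat.le_of_dvd (by norm_num) this
      omega
  · have hqh : q ∣ h := (hq.dvd_mul.1 hqgh).resolve_left hqg
    have hx1 : x0 ≡ 1 [MOD q] := hx01.trans (h1b.of_dvd hqh)
    constructor
    · intro hd
      have h2 : (1 : ℕ) ≡ 0 [MOD q] := hx1.symm.trans ((Nat.modEq_zero_iff_dvd).2 hd)
      have := Nat.le_of_dvd (by norm_num) ((Nat.modEq_zero_iff_dvd).1 h2)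
      omega
    · intro hd
      have h21 : (1 : ℕ) ≡ n [MOD q] := hx1.symm.trans hd
      have h3 := (Nat.modEq_iff_dvd' hn1).1 h21
      exact hqg (Nat.dvd_gcd hqP h3)

end Pool.Agent.Lib.MP_9dd88f_nt
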