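import Mathlib
import Pool.Agent.Lib.MP_9dd88f_nt.DE.Defs
import Pool.Agent.Lib.MP_9dd88f_nt.DE.CardAP
import Pool.Agent.Lib.MP_9dd88f_nt.DE.CrtStart

namespace Pool.Agent.Lib.MP_9dd88f_nt

open Finset Filter

/-- a modulus which is not coprime to `c = 2 * 2 ^ β * P` divides no odd number coprime to `P` -/
private theorem digitStep_cop (β P q x : ℕ) (hq : ¬ (2 * 2 ^ β * P).Coprime q) (hx : Odd x)
    (hxP : x.Coprime P) : ¬ q ∣ x := by
  intro hqx
  obtain ⟨p, hp, hp1, hp2⟩ := Nat.Prime.not_coprime_iff_dvd.1 hq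
  have hpx : p ∣ x := hp2.trans hqx
  rcases (Nat.Prime.dvd_mul hp).1 hp1 with h | h
  · have h2 : p ∣ 2 := by
      rcases (Nat.Prime.dvd_mul hp).1 h with h | h
      · exact h
      · exact hp.dvd_of_dvd_pow h
    have h3 : p = 2 := (Nat.prime_dvd_prime_iff_eq hp Nat.prime_two).1 h2
    rw [h3] at hpx
    exact (Nat.not_even_iff_odd.2 hx) (even_iff_two_dvd.2 hpx)
  · exact Nat.Prime.not_coprime_iff_dvd.2 ⟨p, hp, hpx, h⟩ hxP

theorem digit_step (β P Z X n : ℕ) (bad : Finset ℕ) (hP : Odd P) (hsf : Squarefree P)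
    (hβ : 1 ≤ β) (hX : 2 * 2 ^ β * P * Z ≤ X) (hn : Odd n) (hXn : X < n)
    (hbad : ∑ q ∈ bad, ((Z : ℝ) / q + 1) < (Z : ℝ) / 2) :
    ∃ x y, n = x + 2 ^ β * y ∧ x ≤ X ∧ Clean P bad x ∧ Clean P bad y := by
  classical
  obtain ⟨x0, h1, h2, h3⟩ := crt_start β P n hP hsf hn hβ
  obtain ⟨c, hc⟩ : ∃ c, c = 2 * 2 ^ β * P := ⟨_, rfl⟩
  -- the excluded values of `z`
  obtain ⟨B, hB⟩ : ∃ B : Finset ℕ, B = (bad.filter (fun q => c.Coprime q)).biUnion (fun q =>
      ((range Z).filter (fun z => x0 + c * z ≡ 0 [MOD q])) ∪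
      ((range Z).filter (fun z => x0 + c * z ≡ n [MOD q]))) := ⟨_, rfl⟩
  have hc1 : c ≠ 1 := by
    intro h
    have h4 : 2 ∣ c := by rw [hc, mul_assoc]; exact dvd_mul_right _ _
    rw [h] at h4
    omega
  have hcard : (B.card : ℝ) < (range Z).card := by
    rw [card_range]
    have e1 : (B.card : ℝ) ≤ ∑ q ∈ bad.filter (fun q => c.Coprime q), 2 * ((Z : ℝ) / q + 1) := by
      have e2 : B.card ≤ ∑ q ∈ bad.filter (fun q => c.Coprime q),
          (((range Z).filter (fun z => x0 + c * z ≡ 0 [MOD q])).card +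
          ((range Z).filter (fun z => x0 + c * z ≡ n [MOD q])).card) := by
        rw [hB]
        exact le_trans card_biUnion_le (sum_le_sum fun q _ => card_union_le _ _)
      have e3 : (B.card : ℝ) ≤ ((∑ q ∈ bad.filter (fun q => c.Coprime q),
          (((range Z).filter (fun z => x0 + c * z ≡ 0 [MOD q])).card +
          ((range Z).filter (fun z => x0 + c * z ≡ n [MOD q])).card) : ℕ) : ℝ) := by
        exact_mod_cast e2
      refine le_trans e3 ?_
      rw [Nat.cast_sum]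
      refine sum_le_sum fun q hq => ?_
      have hq1 : c.Coprime q := (mem_filter.1 hq).2
      have hq0 : 0 < q := by
        rcases Nat.eq_zero_or_pos q with h | h
        · rw [h] at hq1
          exact absurd ((Nat.coprime_zero_right c).1 hq1) hc1
        · exact h
      have e4 := card_AP Z q c x0 0 hq0 hq1
      have e5 := card_AP Z q c x0 n hq0 hq1
      push_cast
      linarith
    have e6 : ∑ q ∈ bad.filter (fun q => c.Coprime q), 2 * ((Z : ℝ) / q + 1) ≤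
        ∑ q ∈ bad, 2 * ((Z : ℝ) / q + 1) :=
      sum_le_sum_of_subset_of_nonneg (filter_subset _ _) (fun q _ _ => by positivity)
    rw [← mul_sum, ← mul_sum] at e6
    rw [← mul_sum] at e1
    linarith
  have hcard' : B.card < (range Z).card := by exact_mod_cast hcard
  obtain ⟨z, hz, hzB⟩ := exists_mem_notMem_of_card_lt_card hcard'
  have hzZ : z < Z := mem_range.1 hz
  obtain ⟨x, hx⟩ : ∃ x, x = x0 + c * z := ⟨_, rfl⟩
  have hxX : x ≤ X := by
    have e1 : c * z + c ≤ c * Z := by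
      have : c * (z + 1) ≤ c * Z := Nat.mul_le_mul_left c hzZ
      linarith
    have e2 : c * Z ≤ X := by rw [hc]; exact hX
    have e3 : x0 < c := by rw [hc]; exact h1
    omega
  have hxn : x < n := lt_of_le_of_lt hxX hXn
  -- congruences
  have hcx : x ≡ x0 [MOD c] := by
    rw [hx]
    exact (Nat.modEq_iff_dvd' (Nat.le_add_right _ _)).2 (by
      rw [Nat.add_sub_cancel_left]; exact dvd_mul_right _ _) |>.symm
  have hx2 : x ≡ n + 2 ^ β [MOD 2 * 2 ^ β] :=
    (hcx.of_dvd (by rw [hc]; exact dvd_mul_right _ _)).trans h2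
  -- y
  obtain ⟨y, hy, hyo⟩ : ∃ y, n = x + 2 ^ β * y ∧ Odd y := by
    have e1 : (2 * 2 ^ β : ℤ) ∣ ((n : ℤ) + 2 ^ β) - x := by
      have := (Nat.modEq_iff_dvd.1 hx2)
      push_cast at this
      exact this
    obtain ⟨k, hk⟩ := e1
    have e2 : ((n : ℤ) - x) = 2 ^ β * (2 * k - 1) := by linarith
    have e3 : (0 : ℤ) < 2 ^ β := by positivity
    have e4 : (0 : ℤ) < 2 * k - 1 := by
      have e5 : (0 : ℤ) < (n : ℤ) - x := by
        have : (x : ℤ) < n := by exact_mod_cast hxn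
        linarith
      rw [e2] at e5
      exact (pos_iff_pos_of_mul_pos e5).1 e3
    obtain ⟨y, hy⟩ : ∃ y : ℕ, (y : ℤ) = 2 * k - 1 := ⟨(2 * k - 1).toNat, Int.toNat_of_nonneg e4.le⟩
    refine ⟨y, ?_, ?_⟩
    · have : (n : ℤ) = x + 2 ^ β * y := by rw [hy]; linarith
      exact_mod_cast this
    · have : Odd (y : ℤ) := ⟨k - 1, by rw [hy]; ring⟩
      exact_mod_cast this
  have hxo : Odd x := by
    have e1 : x ≡ n + 2 ^ β [MOD 2] := hx2.of_dvd (dvd_mul_right _ _)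
    have e2 : 2 ∣ 2 ^ β := dvd_pow_self 2 (by omega)
    have e3 : n % 2 = 1 := Nat.odd_iff.1 hn
    rw [Nat.odd_iff]
    have e4 : x % 2 = (n + 2 ^ β) % 2 := e1
    omega
  have hxmod : ∀ q, q ∣ P → x ≡ x0 [MOD q] := fun q hq =>
    hcx.of_dvd (by rw [hc]; exact hq.mul_left _)
  have hxP : x.Coprime P := by
    by_contra hcon
    obtain ⟨p, hp, hp1, hp2⟩ := Nat.Prime.not_coprime_iff_dvd.1 hcon
    exact (h3 p hp hp2).1 (((hxmod p hp2).dvd_iff (dvd_refl p)).1 hp1)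
  have hyq : ∀ q, q ∣ y → x ≡ n [MOD q] := by
    intro q hq
    rw [hy]
    exact ((Nat.modEq_iff_dvd' (Nat.le_add_right _ _)).2 (by
      rw [Nat.add_sub_cancel_left]; exact hq.mul_left _))
  have hyP : y.Coprime P := by
    by_contra hcon
    obtain ⟨p, hp, hp1, hp2⟩ := Nat.Prime.not_coprime_iff_dvd.1 hcon
    exact (h3 p hp hp2).2 ((hxmod p hp2).symm.trans (hyq p hp1))
  have hzq : ∀ q ∈ bad, c.Coprime q → ¬ x ≡ 0 [MOD q] ∧ ¬ x ≡ n [MOD q] := by
    intro q hq hcq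
    constructor
    · intro h
      apply hzB
      rw [hB, mem_biUnion]
      exact ⟨q, mem_filter.2 ⟨hq, hcq⟩, mem_union_left _ (mem_filter.2 ⟨hz, hx ▸ h⟩)⟩
    · intro h
      apply hzB
      rw [hB, mem_biUnion]
      exact ⟨q, mem_filter.2 ⟨hq, hcq⟩, mem_union_right _ (mem_filter.2 ⟨hz, hx ▸ h⟩)⟩
  refine ⟨x, y, hy, hxX, ⟨hxo, hxP, fun q hq hqx => ?_⟩, ⟨hyo, hyP, fun q hq hqy => ?_⟩⟩
  · by_cases hcq : c.Coprime q
    · exact (hzq q hq hcq).1 ((Nat.modEq_zero_iff_dvd).2 hqx)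
    · rw [hc] at hcq
      exact digitStep_cop β P q x hcq hxo hxP hqx
  · by_cases hcq : c.Coprime q
    · exact (hzq q hq hcq).2 (hyq q hqy)
    · rw [hc] at hcq
      exact digitStep_cop β P q y hcq hyo hyP hqy

end Pool.Agent.Lib.MP_9dd88f_nt
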