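import Mathlib
import Pool.Agent.Lib.MP_9dd88f_nt.DE.Defs
import Pool.Agent.Lib.MP_9dd88f_nt.DE.DigitStep

/-!
# Digits (job DE17)
-/

namespace Pool.Agent.Lib.MP_9dd88f_nt

open Finset Filter

theorem digits (β P Z X n : ℕ) (bad : Finset ℕ) (hP : Odd P) (hsf : Squarefree P)
    (hβ : 1 ≤ β) (hX : 2 * 2 ^ β * P * Z ≤ X) (hn : Odd n) (hXn : X < n)
    (hbad : ∑ q ∈ bad, ((Z : ℝ) / q + 1) < (Z : ℝ) / 2) :
    ∃ (L : ℕ) (x : ℕ → ℕ), (∀ l ≤ L, x l ≤ X ∧ Clean P bad (x l)) ∧
      n = ∑ l ∈ range (L + 1), x l * (2 ^ β) ^ l ∧ (2 ^ β) ^ L ≤ n := by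
  induction n using Nat.strong_induction_on with
  | _ n ih =>
    obtain ⟨x, y, hxy, hxX, hcx, hcy⟩ := digit_step β P Z X n bad hP hsf hβ hX hn hXn hbad
    have hy1 : 1 ≤ y := hcy.1.pos
    have hB : 2 ≤ 2 ^ β := by
      calc 2 = 2 ^ 1 := (pow_one 2).symm
        _ ≤ 2 ^ β := Nat.pow_le_pow_right (by norm_num) hβ
    rcases le_or_gt y X with hyX | hyX
    · refine ⟨1, fun l => if l = 0 then x else y, ?_, ?_, ?_⟩
      · intro l _
        by_cases h0 : l = 0
        · simp only [h0, if_true]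
          exact ⟨hxX, hcx⟩
        · simp only [h0, if_false]
          exact ⟨hyX, hcy⟩
      · rw [Finset.sum_range_succ, Finset.sum_range_one]
        simp only [if_true, one_ne_zero, if_false, pow_zero, mul_one, pow_one]
        rw [hxy, mul_comm]
      · rw [pow_one, hxy]
        nlinarith
    · have hyn : y < n := by
        rw [hxy]
        nlinarith
      obtain ⟨L, x', h1, h2, h3⟩ := ih y hyn hcy.1 hyX
      refine ⟨L + 1, fun l => if l = 0 then x else x' (l - 1), ?_, ?_, ?_⟩
      · intro l hl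
        by_cases h0 : l = 0
        · simp only [h0, if_true]
          exact ⟨hxX, hcx⟩
        · simp only [h0, if_false]
          exact h1 (l - 1) (by omega)
      · rw [Finset.sum_range_succ']
        simp only [Nat.add_eq_zero_iff, one_ne_zero, and_false, if_false, if_true, pow_zero, mul_one,
          Nat.add_sub_cancel]
        have h4 : ∑ l ∈ range (L + 1), x' l * (2 ^ β) ^ (l + 1) = 2 ^ β * y := by
          rw [h2, Finset.mul_sum]
          refine Finset.sum_congr rfl fun l _ => ?_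
          rw [pow_succ]
          ring
        rw [h4, hxy, add_comm]
      · rw [pow_succ, hxy]
        nlinarith

end Pool.Agent.Lib.MP_9dd88f_nt
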