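import Mathlib
import Pool.Agent.Lib.MP_9dd88f_nt.DE.Defs
import Pool.Agent.Lib.MP_9dd88f_nt.DE.AvgBound

/-!
# Selection of `u`

The average over `u` of the total weight of the bad moduli is small.
-/

namespace Pool.Agent.Lib.MP_9dd88f_nt

open Finset Filter

/-- the weight of a bad modulus is at most the weighted number of collisions -/
private theorem existsU_bad {t : ℕ} (u : Fin t → ℕ) (q : ℕ) (hq : 1 ≤ q) (h : ¬ GoodMod u q) :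
    1 ≤ (coll u q : ℝ) * ((q : ℝ) ^ (3 / 4 : ℝ) / 4 ^ t) := by
  unfold GoodMod at h
  rw [not_le] at h
  have hq0 : (0 : ℝ) < q := by exact_mod_cast hq
  have h1 : (q : ℝ) ^ (-(3 / 4) : ℝ) * (q : ℝ) ^ (3 / 4 : ℝ) = 1 := by
    rw [← Real.rpow_add hq0]
    norm_num
  have h2 : (0 : ℝ) < (q : ℝ) ^ (3 / 4 : ℝ) / 4 ^ t := by positivity
  have h3 := mul_le_mul_of_nonneg_right h.le h2.le
  have h4 : (4 : ℝ) ^ t * (q : ℝ) ^ (-(3 / 4) : ℝ) * ((q : ℝ) ^ (3 / 4 : ℝ) / 4 ^ t) = 1 := by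
    have h5 : (4 : ℝ) ^ t * (q : ℝ) ^ (-(3 / 4) : ℝ) * ((q : ℝ) ^ (3 / 4 : ℝ) / 4 ^ t) =
        ((q : ℝ) ^ (-(3 / 4) : ℝ) * (q : ℝ) ^ (3 / 4 : ℝ)) * (4 ^ t / 4 ^ t) := by ring
    rw [h5, h1, div_self (by positivity), one_mul]
  rw [h4] at h3
  exact h3

/-- the elementary inequality for the exponents -/
private theorem existsU_num (q Q X Z : ℕ) (hQ : 1 ≤ Q) (hQq : Q ≤ q) (hqX : q ≤ X) :
    ((Z : ℝ) / q + 1) * ((q : ℝ) ^ (3 / 4 : ℝ) * (q : ℝ) ^ (-(7 / 8) : ℝ)) ≤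
      (Z * (Q : ℝ) ^ (-(1 / 16) : ℝ) + (X : ℝ) ^ (15 / 16 : ℝ)) * (q : ℝ) ^ (-(17 / 16) : ℝ) := by
  have hQ0 : (0 : ℝ) < Q := by exact_mod_cast hQ
  have hq0 : (0 : ℝ) < q := by exact_mod_cast (hQ.trans hQq)
  have hQqR : (Q : ℝ) ≤ q := by exact_mod_cast hQq
  have hqXR : (q : ℝ) ≤ X := by exact_mod_cast hqX
  have h1 : (q : ℝ) ^ (3 / 4 : ℝ) * (q : ℝ) ^ (-(7 / 8) : ℝ) = (q : ℝ) ^ (-(1 / 8) : ℝ) := by
    rw [← Real.rpow_add hq0]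
    norm_num
  have h2 : (q : ℝ) ^ (-(1 / 8) : ℝ) = (q : ℝ) ^ (15 / 16 : ℝ) * (q : ℝ) ^ (-(17 / 16) : ℝ) := by
    rw [← Real.rpow_add hq0]
    norm_num
  have h3 : (q : ℝ)⁻¹ * (q : ℝ) ^ (-(1 / 8) : ℝ) =
      (q : ℝ) ^ (-(1 / 16) : ℝ) * (q : ℝ) ^ (-(17 / 16) : ℝ) := by
    rw [← Real.rpow_neg_one, ← Real.rpow_add hq0, ← Real.rpow_add hq0]
    norm_num
  have h4 : (q : ℝ) ^ (-(1 / 16) : ℝ) ≤ (Q : ℝ) ^ (-(1 / 16) : ℝ) :=
    Real.rpow_le_rpow_of_nonpos hQ0 hQqR (by norm_num)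
  have h5 : (q : ℝ) ^ (15 / 16 : ℝ) ≤ (X : ℝ) ^ (15 / 16 : ℝ) :=
    Real.rpow_le_rpow hq0.le hqXR (by norm_num)
  have h6 : (0 : ℝ) ≤ (q : ℝ) ^ (-(17 / 16) : ℝ) := Real.rpow_nonneg hq0.le _
  rw [h1]
  calc ((Z : ℝ) / q + 1) * (q : ℝ) ^ (-(1 / 8) : ℝ)
      = Z * ((q : ℝ)⁻¹ * (q : ℝ) ^ (-(1 / 8) : ℝ)) + (q : ℝ) ^ (-(1 / 8) : ℝ) := by
        rw [div_eq_mul_inv]
        ring
    _ = Z * ((q : ℝ) ^ (-(1 / 16) : ℝ) * (q : ℝ) ^ (-(17 / 16) : ℝ)) +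
        (q : ℝ) ^ (15 / 16 : ℝ) * (q : ℝ) ^ (-(17 / 16) : ℝ) := by
        rw [h3, ← h2]
    _ ≤ Z * ((Q : ℝ) ^ (-(1 / 16) : ℝ) * (q : ℝ) ^ (-(17 / 16) : ℝ)) +
        (X : ℝ) ^ (15 / 16 : ℝ) * (q : ℝ) ^ (-(17 / 16) : ℝ) := by
        refine add_le_add ?_ (mul_le_mul_of_nonneg_right h5 h6)
        exact mul_le_mul_of_nonneg_left (mul_le_mul_of_nonneg_right h4 h6) (Nat.cast_nonneg Z)
    _ = _ := by ring

open Classical in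
theorem exists_u (t Y X Q Z : ℕ) (s : Finset ℕ) (ρ C0 : ℝ) (hs : ∀ p ∈ s, p.Prime ∧ p ≤ Y)
    (hρ : 1 ≤ ρ) (hYρ : (Y : ℝ) ≤ ρ * s.card) (htY : ((t : ℝ) * ρ) ^ 8 ≤ Y) (ht : 2 ≤ t)
    (hX : (X : ℝ) * (t * (3 / 4) ^ t) ≤ 1) (hXt : X ≤ 2 ^ t)
    (hC0 : ∀ N : ℕ, ∑ n ∈ Icc 1 N, (n : ℝ) ^ (-(17 / 16) : ℝ) ≤ C0) (hQ : 1 ≤ Q) :
    ∃ u ∈ Fintype.piFinset (fun _ : Fin t => s),
      ∑ q ∈ (Icc Q X).filter (fun q => (∀ i, (u i).Coprime q) ∧ ¬ GoodMod u q),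
        ((Z : ℝ) / q + 1) ≤
      3 * ρ * C0 * (Z * (Q : ℝ) ^ (-(1 / 16) : ℝ) + (X : ℝ) ^ (15 / 16 : ℝ)) := by
  have hρ0 : 0 < ρ := by linarith
  have hscard : (0 : ℝ) < s.card := by
    have h1 : (0 : ℝ) < ((t : ℝ) * ρ) ^ 8 := by
      have : (0 : ℝ) < t := by
        have : 0 < t := by omega
        exact_mod_cast this
      positivity
    have h2 : 0 < ρ * s.card := by linarith
    exact (mul_pos_iff_of_pos_left hρ0).1 h2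
  have hsne : s.Nonempty := by
    rw [← Finset.card_pos]
    exact_mod_cast hscard
  obtain ⟨p0, hp0⟩ := hsne
  have hUne : (Fintype.piFinset (fun _ : Fin t => s)).Nonempty :=
    ⟨fun _ => p0, by rw [Fintype.mem_piFinset]; exact fun _ => hp0⟩
  have hUcard : ((Fintype.piFinset (fun _ : Fin t => s)).card : ℝ) = (s.card : ℝ) ^ t := by
    rw [Fintype.card_piFinset, Finset.prod_const, Finset.card_univ, Fintype.card_fin]
    push_cast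
    rfl
  set W : ℝ := Z * (Q : ℝ) ^ (-(1 / 16) : ℝ) + (X : ℝ) ^ (15 / 16 : ℝ) with hW
  have hW0 : 0 ≤ W := by positivity
  refine Finset.exists_le_of_sum_le hUne ?_
  rw [Finset.sum_const, nsmul_eq_mul, hUcard]
  -- the weighted collisions
  have step1 : ∀ u ∈ Fintype.piFinset (fun _ : Fin t => s),
      ∑ q ∈ (Icc Q X).filter (fun q => (∀ i, (u i).Coprime q) ∧ ¬ GoodMod u q),
        ((Z : ℝ) / q + 1) ≤
      ∑ q ∈ Icc Q X, if (∀ i, (u i).Coprime q) then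
        ((Z : ℝ) / q + 1) * ((coll u q : ℝ) * ((q : ℝ) ^ (3 / 4 : ℝ) / 4 ^ t)) else 0 := by
    intro u _
    rw [Finset.sum_filter]
    refine Finset.sum_le_sum fun q hq => ?_
    rw [Finset.mem_Icc] at hq
    have h0 : (0 : ℝ) ≤ (Z : ℝ) / q + 1 := by positivity
    by_cases h1 : ∀ i, (u i).Coprime q
    · rw [if_pos h1]
      by_cases h2 : GoodMod u q
      · rw [if_neg (fun h => h.2 h2)]
        positivity
      · rw [if_pos ⟨h1, h2⟩]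
        exact le_mul_of_one_le_right h0 (existsU_bad u q (hQ.trans hq.1) h2)
    · rw [if_neg h1, if_neg (fun h => h1 h.1)]
  refine (Finset.sum_le_sum step1).trans ?_
  rw [Finset.sum_comm]
  have step2 : ∀ q ∈ Icc Q X,
      (∑ u ∈ Fintype.piFinset (fun _ : Fin t => s), if (∀ i, (u i).Coprime q) then
        ((Z : ℝ) / q + 1) * ((coll u q : ℝ) * ((q : ℝ) ^ (3 / 4 : ℝ) / 4 ^ t)) else 0) ≤
      ((s.card : ℝ) ^ t * (3 * ρ * W)) * (q : ℝ) ^ (-(17 / 16) : ℝ) := by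
    intro q hq
    rw [Finset.mem_Icc] at hq
    have h0 : (0 : ℝ) ≤ (Z : ℝ) / q + 1 := by positivity
    have h1 := avg_bound t q Y X s ρ hs hρ hYρ htY ht hX hXt (hQ.trans hq.1) hq.2
    have h2 : (∑ u ∈ Fintype.piFinset (fun _ : Fin t => s), if (∀ i, (u i).Coprime q) then
        ((Z : ℝ) / q + 1) * ((coll u q : ℝ) * ((q : ℝ) ^ (3 / 4 : ℝ) / 4 ^ t)) else 0) =
        (((Z : ℝ) / q + 1) * ((q : ℝ) ^ (3 / 4 : ℝ) / 4 ^ t)) *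
        ∑ u ∈ (Fintype.piFinset (fun _ : Fin t => s)).filter (fun u => ∀ i, (u i).Coprime q),
          (coll u q : ℝ) := by
      rw [Finset.mul_sum, Finset.sum_filter]
      refine Finset.sum_congr rfl fun u _ => ?_
      by_cases h3 : ∀ i, (u i).Coprime q
      · rw [if_pos h3, if_pos h3]
        ring
      · rw [if_neg h3, if_neg h3]
    rw [h2]
    have h3 : (0 : ℝ) ≤ ((Z : ℝ) / q + 1) * ((q : ℝ) ^ (3 / 4 : ℝ) / 4 ^ t) := by positivity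
    refine (mul_le_mul_of_nonneg_left h1 h3).trans ?_
    have h4 : ((Z : ℝ) / q + 1) * ((q : ℝ) ^ (3 / 4 : ℝ) / 4 ^ t) *
        ((4 * (s.card : ℝ)) ^ t * (3 * ρ * (q : ℝ) ^ (-(7 / 8) : ℝ))) =
        ((s.card : ℝ) ^ t * (3 * ρ)) * (((Z : ℝ) / q + 1) *
          ((q : ℝ) ^ (3 / 4 : ℝ) * (q : ℝ) ^ (-(7 / 8) : ℝ))) * (4 ^ t / 4 ^ t) := by
      rw [mul_pow]
      ring
    rw [h4, div_self (by positivity), mul_one]
    have h5 := existsU_num q Q X Z hQ hq.1 hq.2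
    have h6 : (0 : ℝ) ≤ (s.card : ℝ) ^ t * (3 * ρ) := by positivity
    refine (mul_le_mul_of_nonneg_left h5 h6).trans (le_of_eq ?_)
    rw [hW]
    ring
  refine (Finset.sum_le_sum step2).trans ?_
  rw [← Finset.mul_sum]
  have h7 : ∑ q ∈ Icc Q X, (q : ℝ) ^ (-(17 / 16) : ℝ) ≤ C0 := by
    refine le_trans ?_ (hC0 X)
    refine Finset.sum_le_sum_of_subset_of_nonneg (Finset.Icc_subset_Icc_left hQ) fun q _ _ => ?_
    exact Real.rpow_nonneg (Nat.cast_nonneg q) _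
  have h8 : (0 : ℝ) ≤ (s.card : ℝ) ^ t * (3 * ρ * W) := by positivity
  refine (mul_le_mul_of_nonneg_left h7 h8).trans (le_of_eq ?_)
  ring

end Pool.Agent.Lib.MP_9dd88f_nt
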