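import Mathlib

namespace Pool.Agent.Lib.MP_9dd88f_nt

open Finset Filter

theorem exists_zero_sum {x n : ℕ} [NeZero x] {ι : Type*} [Fintype ι] (f : Fin n → ι → ZMod x)
    (h : ∑ h ∈ (univ : Finset (ZMod x)).erase 0,
      ∏ i, ‖∑ α, ZMod.stdAddChar (h * f i α)‖ < (Fintype.card ι : ℝ) ^ n) :
    ∃ α : Fin n → ι, ∑ i, f i (α i) = 0 := by
  classical
  by_contra hcon
  push Not at hcon
  have key : ∀ h : ZMod x, ∑ α : Fin n → ι, ZMod.stdAddChar (h * ∑ i, f i (α i)) =
      ∏ i, ∑ α, ZMod.stdAddChar (h * f i α) := by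
    intro h
    rw [Finset.prod_univ_sum, Fintype.piFinset_univ]
    refine Finset.sum_congr rfl fun α _ => ?_
    rw [Finset.mul_sum]
    have hs : ∀ t : Finset (Fin n), ZMod.stdAddChar (∑ i ∈ t, h * f i (α i)) =
        ∏ i ∈ t, ZMod.stdAddChar (h * f i (α i)) := by
      intro t
      induction t using Finset.induction_on with
      | empty => simp
      | insert a t ha ih => rw [Finset.sum_insert ha, Finset.prod_insert ha,
          AddChar.map_add_eq_mul, ih]
    exact hs univ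
  have h0 : ∑ h : ZMod x, ∏ i, ∑ α, ZMod.stdAddChar (h * f i α) = 0 := by
    simp_rw [← key]
    rw [Finset.sum_comm]
    refine Finset.sum_eq_zero fun α _ => ?_
    rw [AddChar.sum_mulShift _ (ZMod.isPrimitive_stdAddChar x), if_neg (hcon α)]
    simp
  rw [← Finset.add_sum_erase _ _ (Finset.mem_univ (0 : ZMod x))] at h0
  have h1 : ∏ i : Fin n, ∑ α : ι, ZMod.stdAddChar ((0 : ZMod x) * f i α) =
      (Fintype.card ι : ℂ) ^ n := by
    simp
  rw [h1] at h0
  have h2 : (Fintype.card ι : ℂ) ^ n = - ∑ h ∈ (univ : Finset (ZMod x)).erase 0,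
      ∏ i, ∑ α, ZMod.stdAddChar (h * f i α) := eq_neg_of_add_eq_zero_left h0
  have h3 : (Fintype.card ι : ℝ) ^ n = ‖(Fintype.card ι : ℂ) ^ n‖ := by
    simp
  rw [h2, norm_neg] at h3
  have h4 := norm_sum_le ((univ : Finset (ZMod x)).erase 0)
    (fun h => ∏ i, ∑ α, ZMod.stdAddChar (h * f i α))
  simp_rw [norm_prod] at h4
  linarith

end Pool.Agent.Lib.MP_9dd88f_nt
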