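import Mathlib

/-!
MP_9dd88f_nt, job DE12 (`pool`): a pool of primes, from Chebyshev's lower bound `Chebyshev.pi_ge`.
-/

set_option autoImplicit false

namespace Pool.Agent.Lib.MP_9dd88f_nt

open Finset Filter

private theorem pool_count (A n : ℕ) :
    Nat.primeCounting n ≤ ((Finset.Ioc A n).filter Nat.Prime).card + A := by
  have h1 : Nat.primeCounting n = ((Finset.range (n + 1)).filter Nat.Prime).card := by
    show Nat.count Nat.Prime (n + 1) = _
    rw [Nat.count_eq_card_filter_range]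
  rw [h1]
  have h2 : (Finset.range (n + 1)).filter Nat.Prime ⊆
      (Finset.Ioc A n).filter Nat.Prime ∪ Finset.Ioc 0 A := by
    intro p hp
    rw [Finset.mem_filter, Finset.mem_range] at hp
    rw [Finset.mem_union, Finset.mem_filter, Finset.mem_Ioc, Finset.mem_Ioc]
    have h3 := hp.2.pos
    rcases Nat.lt_or_ge A p with h | h
    · exact Or.inl ⟨⟨h, by omega⟩, hp.2⟩
    · exact Or.inr ⟨h3, h⟩
  refine (Finset.card_le_card h2).trans ((Finset.card_union_le _ _).trans ?_)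
  rw [Nat.card_Ioc, Nat.sub_zero]

theorem pool : ∃ C1 : ℝ, 0 < C1 ∧ ∀ᶠ σ : ℕ in atTop, ∃ s : Finset ℕ,
    (∀ p ∈ s, p.Prime ∧ 64 * (2500 * σ) < p ∧ p ≤ (2500 * σ) ^ 9) ∧
    (((2500 * σ) ^ 9 : ℕ) : ℝ) ≤ C1 * Real.log σ * s.card := by
  refine ⟨36, by norm_num, ?_⟩
  filter_upwards [eventually_ge_atTop 2500] with σ hσ
  refine ⟨(Finset.Ioc (64 * (2500 * σ)) ((2500 * σ) ^ 9)).filter Nat.Prime, ?_, ?_⟩
  · intro p hp
    rw [Finset.mem_filter, Finset.mem_Ioc] at hp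
    exact ⟨hp.2, hp.1.1, hp.1.2⟩
  · have h1 := pool_count (64 * (2500 * σ)) ((2500 * σ) ^ 9)
    have h2 := Chebyshev.pi_ge ((2500 * σ) ^ 9)
    set c : ℕ := ((Finset.Ioc (64 * (2500 * σ)) ((2500 * σ) ^ 9)).filter Nat.Prime).card with hc
    set P : ℕ := Nat.primeCounting ((2500 * σ) ^ 9) with hP
    have hσ' : (2500 : ℝ) ≤ σ := by exact_mod_cast hσ
    have h1' : (P : ℝ) ≤ c + 64 * (2500 * σ) := by exact_mod_cast h1
    have hn : (((2500 * σ) ^ 9 : ℕ) : ℝ) = (2500 * (σ : ℝ)) ^ 9 := by push_cast; ring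
    rw [hn] at h2 ⊢
    set n : ℝ := (2500 * (σ : ℝ)) ^ 9 with hn'
    have hσ0 : (0 : ℝ) < σ := by linarith
    have hls : 0 < Real.log σ := Real.log_pos (by linarith)
    have hlsσ : Real.log σ ≤ σ := (Real.log_le_sub_one_of_pos hσ0).trans (by linarith)
    have hlogn : Real.log n = 9 * (Real.log 2500 + Real.log σ) := by
      rw [hn', Real.log_pow, Real.log_mul (by norm_num) hσ0.ne']
      norm_num
    have hl2500 : Real.log 2500 ≤ Real.log σ := Real.log_le_log (by norm_num) hσ'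
    have hl2500' : 0 < Real.log 2500 := Real.log_pos (by norm_num)
    have hlogn1 : Real.log n ≤ 18 * Real.log σ := by
      rw [hlogn]
      linarith
    have hlogn0 : 0 < Real.log n := by
      rw [hlogn]
      positivity
    have hn1 : 10 ^ 8 * (σ : ℝ) ^ 2 ≤ n := by
      have e : n = (2500 * (σ : ℝ)) ^ 2 * (2500 * (σ : ℝ)) ^ 7 := by
        rw [hn']
        ring
      have h3 : (100 : ℝ) ≤ (2500 * (σ : ℝ)) ^ 7 := by
        calc (100 : ℝ) ≤ 2500 * (σ : ℝ) := by linarith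
          _ ≤ (2500 * (σ : ℝ)) ^ 7 := le_self_pow₀ (by linarith) (by norm_num)
      rw [e]
      calc 10 ^ 8 * (σ : ℝ) ^ 2 ≤ (2500 * (σ : ℝ)) ^ 2 * 100 := by nlinarith [sq_nonneg (σ : ℝ)]
        _ ≤ (2500 * (σ : ℝ)) ^ 2 * (2500 * (σ : ℝ)) ^ 7 :=
          mul_le_mul_of_nonneg_left h3 (by positivity)
    have hσsq : (σ : ℝ) ≤ (σ : ℝ) ^ 2 := by nlinarith
    have hn2 : 1 ≤ n := by nlinarith
    have hlogn2 : Real.log (n + 1) ≤ 1 + 18 * (σ : ℝ) ^ 2 := by
      have h3 : Real.log (n + 1) ≤ Real.log (2 * n) := Real.log_le_log (by linarith) (by linarith)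
      rw [Real.log_mul (by norm_num) (by linarith)] at h3
      have h4 := Real.log_two_lt_d9
      nlinarith
    have hlog2 := Real.log_two_gt_d9
    rw [div_le_iff₀ hlogn0] at h2
    have h5 : (P : ℝ) * Real.log n ≤ (c + 64 * (2500 * (σ : ℝ))) * (18 * Real.log σ) := by
      have hP0 : (0 : ℝ) ≤ P := Nat.cast_nonneg _
      exact mul_le_mul h1' hlogn1 hlogn0.le (hP0.trans h1')
    have h6 : 64 * (2500 * (σ : ℝ)) * (18 * Real.log σ) ≤ 2880000 * (σ : ℝ) ^ 2 := by nlinarith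
    have h7 : (0 : ℝ) ≤ (c : ℝ) * Real.log σ := by positivity
    nlinarith

end Pool.Agent.Lib.MP_9dd88f_nt
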