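import Mathlib
import Pool.Agent.Lib.MP_9dd88f_nt.DE.Defs
import Pool.Agent.Lib.MP_9dd88f_nt.DE.ExistsU
import Pool.Agent.Lib.MP_9dd88f_nt.DE.Pool

/-! DE13: the choice of `u`. -/

namespace Pool.Agent.Lib.MP_9dd88f_nt

open Finset Filter

private theorem goodU_card (A : Finset ℕ) (hA : ∀ p ∈ A, p.Prime) :
    (∏ p ∈ A, p).divisors.card = 2 ^ A.card := by
  classical
  induction A using Finset.induction_on with
  | empty => simp
  | insert p A hp ih =>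
    have h1 : p.Coprime (∏ q ∈ A, q) := Nat.Coprime.prod_right fun q hq =>
      (Nat.coprime_primes (hA p (mem_insert_self _ _)) (hA q (mem_insert_of_mem hq))).2
        (fun h => hp (h ▸ hq))
    rw [Finset.prod_insert hp, h1.card_divisors_mul, ih fun q hq => hA q (mem_insert_of_mem hq),
      (hA p (mem_insert_self _ _)).divisors, Finset.card_insert_of_notMem hp,
      Finset.card_pair (hA p (mem_insert_self _ _)).one_lt.ne, pow_succ]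
    ring

private theorem goodU_lin (c r : ℝ) (hr : 1 < r) : ∀ᶠ σ : ℕ in atTop, c * σ ≤ r ^ σ := by
  have h1 := tendsto_self_mul_const_pow_of_lt_one (r := r⁻¹) (by positivity) (inv_lt_one_of_one_lt₀ hr)
  have h2 : Tendsto (fun n : ℕ => c * ((n : ℝ) * r⁻¹ ^ n)) atTop (nhds (c * 0)) := h1.const_mul c
  rw [mul_zero] at h2
  filter_upwards [h2.eventually_le_const one_pos] with σ hσ
  have h3 : 0 < r ^ σ := by positivity
  rw [inv_pow, ← mul_assoc, ← div_eq_mul_inv, div_le_one h3] at hσ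
  exact hσ

open Classical in
theorem good_u : ∀ᶠ σ : ℕ in atTop, ∃ (u : Fin (2500 * σ) → ℕ) (Me : ℕ),
    (∀ i, (u i).Prime ∧ 64 * (2500 * σ) < u i ∧ u i ≤ (2500 * σ) ^ 9) ∧
    Odd Me ∧ Me ≤ ((2500 * σ) ^ 9) ^ σ ∧ 2 ^ σ ≤ Me.divisors.card ∧
    ∑ q ∈ (Icc σ (2 ^ (1000 * σ))).filter (fun q => (∀ i, (u i).Coprime q) ∧ ¬ GoodMod u q),
      (((2 ^ (940 * σ) : ℕ) : ℝ) / q + 1) ≤ ((2 ^ (940 * σ) : ℕ) : ℝ) / 4 := by
  obtain ⟨C1, hC1, hpool⟩ := pool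
  -- the constant `C0`
  have hsum : Summable (fun n : ℕ => (n : ℝ) ^ (-(17 / 16) : ℝ)) :=
    Real.summable_nat_rpow.2 (by norm_num)
  obtain ⟨C0, hC0def⟩ : ∃ C0, C0 = ∑' n : ℕ, (n : ℝ) ^ (-(17 / 16) : ℝ) := ⟨_, rfl⟩
  have hC0 : ∀ N : ℕ, ∑ n ∈ Icc 1 N, (n : ℝ) ^ (-(17 / 16) : ℝ) ≤ C0 := by
    intro N
    rw [hC0def]
    exact hsum.sum_le_tsum _ fun n _ => by positivity
  have hC0nn : 0 ≤ C0 := by
    rw [hC0def]
    exact tsum_nonneg fun n => by positivity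
  have hcast : Tendsto (fun σ : ℕ => (σ : ℝ)) atTop atTop := tendsto_natCast_atTop_atTop
  -- eventually facts
  have e1 : ∀ᶠ σ : ℕ in atTop, 1 ≤ C1 * Real.log σ := by
    have h1 : Tendsto (fun σ : ℕ => C1 * Real.log σ) atTop atTop :=
      (Real.tendsto_log_atTop.comp hcast).const_mul_atTop hC1
    exact h1.eventually_ge_atTop 1
  have e2 : ∀ᶠ σ : ℕ in atTop, (C1 * Real.log σ) ^ 8 ≤ 2500 * σ := by
    have h1 := (Real.isLittleO_pow_log_id_atTop (n := 8)).bound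
      (show (0 : ℝ) < (C1 ^ 8)⁻¹ by positivity)
    filter_upwards [hcast.eventually h1, hcast.eventually_ge_atTop 1] with σ hσ hσ1
    rw [id, Real.norm_eq_abs, Real.norm_eq_abs, abs_of_nonneg (by linarith : (0 : ℝ) ≤ σ)] at hσ
    have h2 : Real.log σ ^ 8 ≤ (C1 ^ 8)⁻¹ * σ := (le_abs_self _).trans hσ
    calc (C1 * Real.log σ) ^ 8 = C1 ^ 8 * Real.log σ ^ 8 := mul_pow _ _ _
      _ ≤ C1 ^ 8 * ((C1 ^ 8)⁻¹ * σ) := mul_le_mul_of_nonneg_left h2 (by positivity)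
      _ = σ := by field_simp
      _ ≤ 2500 * σ := by linarith
  have e3 : ∀ᶠ σ : ℕ in atTop,
      3 * (C1 * Real.log σ) * C0 * (σ : ℝ) ^ (-(1 / 16) : ℝ) ≤ 1 / 8 := by
    have h1 := (isLittleO_log_rpow_atTop (show (0 : ℝ) < 1 / 16 by norm_num)).bound
      (show (0 : ℝ) < (24 * C1 * (C0 + 1))⁻¹ by positivity)
    filter_upwards [hcast.eventually h1, hcast.eventually_ge_atTop 1] with σ hσ hσ1
    have hσ0 : (0 : ℝ) < σ := by linarith
    have hp : 0 < (σ : ℝ) ^ (1 / 16 : ℝ) := Real.rpow_pos_of_pos hσ0 _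
    rw [Real.norm_eq_abs, Real.norm_eq_abs, abs_of_pos hp] at hσ
    have h2 : Real.log σ ≤ (24 * C1 * (C0 + 1))⁻¹ * (σ : ℝ) ^ (1 / 16 : ℝ) :=
      (le_abs_self _).trans hσ
    rw [Real.rpow_neg hσ0.le, ← div_eq_mul_inv, div_le_iff₀ hp]
    calc 3 * (C1 * Real.log σ) * C0 ≤
        3 * (C1 * ((24 * C1 * (C0 + 1))⁻¹ * (σ : ℝ) ^ (1 / 16 : ℝ))) * C0 := by
          refine mul_le_mul_of_nonneg_right ?_ hC0nn
          refine mul_le_mul_of_nonneg_left ?_ (by norm_num)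
          exact mul_le_mul_of_nonneg_left h2 hC1.le
      _ = (C0 / (C0 + 1)) * (1 / 8 * (σ : ℝ) ^ (1 / 16 : ℝ)) := by
          field_simp
          ring
      _ ≤ 1 * (1 / 8 * (σ : ℝ) ^ (1 / 16 : ℝ)) := by
          refine mul_le_mul_of_nonneg_right ?_ (by positivity)
          rw [div_le_one (by linarith)]
          linarith
      _ = _ := one_mul _
  have e4 := goodU_lin (24 * 2500 * C0) 4 (by norm_num)
  have e5 := goodU_lin 2500 ((256 / 243 : ℝ) ^ 500) (one_lt_pow₀ (by norm_num) (by norm_num))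
  filter_upwards [hpool, e1, e2, e3, e4, e5, eventually_ge_atTop 1] with σ ⟨s, hs, hsc⟩ h1 h2 h3 h4
    h5 hσ1
  obtain ⟨ρ, hρ⟩ : ∃ ρ, ρ = C1 * Real.log σ := ⟨_, rfl⟩
  rw [← hρ] at hsc h1 h2 h3
  have hσr : (1 : ℝ) ≤ σ := by exact_mod_cast hσ1
  have hρt : ρ ≤ 2500 * σ := (le_self_pow₀ h1 (by norm_num)).trans h2
  have htY : (((2500 * σ : ℕ) : ℝ) * ρ) ^ 8 ≤ (((2500 * σ) ^ 9 : ℕ) : ℝ) := by
    rw [mul_pow]
    push_cast
    calc (2500 * (σ : ℝ)) ^ 8 * ρ ^ 8 ≤ (2500 * (σ : ℝ)) ^ 8 * (2500 * σ) :=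
          mul_le_mul_of_nonneg_left h2 (by positivity)
      _ = (2500 * (σ : ℝ)) ^ 9 := by ring
  have hX : ((2 ^ (1000 * σ) : ℕ) : ℝ) * (((2500 * σ : ℕ) : ℝ) * (3 / 4) ^ (2500 * σ)) ≤ 1 := by
    have h6 : ((256 / 243 : ℝ) ^ 500) ^ σ * ((2 : ℝ) ^ (1000 * σ) * (3 / 4) ^ (2500 * σ)) = 1 := by
      rw [← pow_mul, show 1000 * σ = 2 * (500 * σ) by ring, show 2500 * σ = 5 * (500 * σ) by ring,
        pow_mul (2 : ℝ) 2, pow_mul (3 / 4 : ℝ) 5, ← mul_pow, ← mul_pow]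
      norm_num
    have h7 : 0 < (2 : ℝ) ^ (1000 * σ) * (3 / 4) ^ (2500 * σ) := by positivity
    have h8 := mul_le_mul_of_nonneg_right h5 h7.le
    rw [h6] at h8
    push_cast
    calc (2 : ℝ) ^ (1000 * σ) * (2500 * (σ : ℝ) * (3 / 4) ^ (2500 * σ))
        = 2500 * (σ : ℝ) * ((2 : ℝ) ^ (1000 * σ) * (3 / 4) ^ (2500 * σ)) := by ring
      _ ≤ 1 := h8
  obtain ⟨u, hu, hbad⟩ := exists_u (2500 * σ) ((2500 * σ) ^ 9) (2 ^ (1000 * σ)) σ (2 ^ (940 * σ)) s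
    ρ C0 (fun p hp => ⟨(hs p hp).1, (hs p hp).2.2⟩) h1 hsc htY (by omega) hX
    (Nat.pow_le_pow_right (by norm_num) (by omega)) hC0 hσ1
  -- the number `Me`
  have hscard : σ ≤ s.card := by
    have h6 : (((2500 * σ) ^ 9 : ℕ) : ℝ) ≤ 2500 * σ * s.card :=
      hsc.trans (mul_le_mul_of_nonneg_right hρt (Nat.cast_nonneg _))
    have h7 : (2500 * σ) ^ 9 ≤ (2500 * σ) * s.card := by exact_mod_cast h6
    have h8 : (2500 * σ) ^ 8 ≤ s.card := by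
      rw [pow_succ', ] at h7
      exact Nat.le_of_mul_le_mul_left h7 (by omega)
    have h9 : 2500 * σ ≤ (2500 * σ) ^ 8 := Nat.le_self_pow (by norm_num) _
    omega
  obtain ⟨A, hAs, hAc⟩ := Finset.exists_subset_card_eq hscard
  refine ⟨u, ∏ p ∈ A, p, ?_, ?_, ?_, ?_, ?_⟩
  · intro i
    exact hs _ (Fintype.mem_piFinset.1 hu i)
  · refine Finset.prod_induction (fun p => p) (fun n => Odd n) (fun a b ha hb => ha.mul hb) odd_one
      fun p hp => ?_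
    have h6 := hs p (hAs hp)
    refine h6.1.odd_of_ne_two ?_
    have := h6.2.1
    omega
  · calc ∏ p ∈ A, p ≤ ∏ p ∈ A, (2500 * σ) ^ 9 := Finset.prod_le_prod' fun p hp => (hs p (hAs hp)).2.2
      _ = ((2500 * σ) ^ 9) ^ σ := by rw [Finset.prod_const, hAc]
  · rw [goodU_card A fun p hp => (hs p (hAs hp)).1, hAc]
  · refine hbad.trans ?_
    have h6 : (((2 ^ (1000 * σ) : ℕ) : ℝ)) ^ (15 / 16 : ℝ) ≤ (2 : ℝ) ^ (938 * σ) := by
      have h7 : (((2 ^ (1000 * σ) : ℕ) : ℝ)) = (2 : ℝ) ^ ((1000 * σ : ℕ) : ℝ) := by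
        rw [Real.rpow_natCast]
        push_cast
        rfl
      rw [h7, ← Real.rpow_mul (by norm_num), ← Real.rpow_natCast]
      refine Real.rpow_le_rpow_of_exponent_le (by norm_num) ?_
      push_cast
      nlinarith
    have h7 : 3 * ρ * C0 * (2 : ℝ) ^ (938 * σ) ≤ (2 : ℝ) ^ (940 * σ) / 8 := by
      have h8 : (2 : ℝ) ^ (940 * σ) = 4 ^ σ * 2 ^ (938 * σ) := by
        rw [show 940 * σ = 2 * σ + 938 * σ by ring, pow_add, pow_mul (2 : ℝ) 2]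
        norm_num
      rw [h8]
      have h9 : 24 * ρ * C0 ≤ 4 ^ σ := by
        refine le_trans ?_ h4
        have h10 := mul_le_mul_of_nonneg_right hρt hC0nn
        linarith
      have h11 : 0 < (2 : ℝ) ^ (938 * σ) := by positivity
      nlinarith
    have h8 : 0 ≤ 3 * ρ * C0 := by positivity
    push_cast at h6 ⊢
    calc 3 * ρ * C0 * ((2 : ℝ) ^ (940 * σ) * (σ : ℝ) ^ (-(1 / 16) : ℝ) +
          ((2 : ℝ) ^ (1000 * σ)) ^ (15 / 16 : ℝ))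
        = (3 * ρ * C0 * (σ : ℝ) ^ (-(1 / 16) : ℝ)) * (2 : ℝ) ^ (940 * σ) +
          3 * ρ * C0 * ((2 : ℝ) ^ (1000 * σ)) ^ (15 / 16 : ℝ) := by ring
      _ ≤ 1 / 8 * (2 : ℝ) ^ (940 * σ) + (2 : ℝ) ^ (940 * σ) / 8 :=
          add_le_add (mul_le_mul_of_nonneg_right h3 (by positivity))
            ((mul_le_mul_of_nonneg_left h6 h8).trans h7)
      _ = (2 : ℝ) ^ (940 * σ) / 4 := by ring

end Pool.Agent.Lib.MP_9dd88f_nt
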