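import Mathlib
import Pool.Agent.Lib.MP_9dd88f_nt.DE.Defs

/-!
# DE3: the sum over the additive characters by order

`h ≠ 0` has order `q ∣ x`, `q > 1`, hence `q ≥ 3`; at most `q` elements of `ZMod x` have order `q`, and
`∑_{q ≥ 3} q * q⁻³ ≤ ∑_{q ≥ 3} (1/(q-1) - 1/q) ≤ 1/2`.
-/

namespace Pool.Agent.Lib.MP_9dd88f_nt

open Finset Filter

private theorem sumOrder_tel (N : ℕ) (hN : 2 ≤ N) :
    ∑ q ∈ Icc 3 N, (q : ℝ) * ((q : ℝ) ^ 3)⁻¹ ≤ 1 / 2 - 1 / N := by
  induction N, hN using Nat.le_induction with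
  | base => norm_num
  | succ n hn ih =>
    rw [Finset.sum_Icc_succ_top (by omega)]
    have h0 : (0 : ℝ) < n := by
      have : 0 < n := by omega
      exact_mod_cast this
    have h1 : ((n + 1 : ℕ) : ℝ) * (((n + 1 : ℕ) : ℝ) ^ 3)⁻¹ ≤ 1 / n - 1 / ((n + 1 : ℕ) : ℝ) := by
      push_cast
      have h2 : ((n : ℝ) + 1) * (((n : ℝ) + 1) ^ 3)⁻¹ = 1 / (((n : ℝ) + 1) * ((n : ℝ) + 1)) := by
        field_simp
      have h3 : 1 / (n : ℝ) - 1 / ((n : ℝ) + 1) = 1 / ((n : ℝ) * ((n : ℝ) + 1)) := by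
        field_simp
        ring
      rw [h2, h3]
      apply one_div_le_one_div_of_le (by positivity)
      nlinarith
    linarith

private theorem sumOrder_card {x : ℕ} [NeZero x] (s : Finset (ZMod x)) (q : ℕ) (hq : 0 < q) :
    (s.filter (fun h => addOrderOf h = q)).card ≤ q := by
  classical
  refine le_trans (card_le_card ?_) (IsAddCyclic.card_nsmul_eq_zero_le (α := ZMod x) hq)
  intro h hh
  rw [mem_filter] at hh
  rw [mem_filter]
  refine ⟨mem_univ _, ?_⟩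
  rw [← hh.2]
  exact addOrderOf_nsmul_eq_zero h

theorem sum_order {x : ℕ} [NeZero x] (hq : ∀ q, q ∣ x → 1 < q → 3 ≤ q) :
    ∑ h ∈ (univ : Finset (ZMod x)).erase 0, ((addOrderOf h : ℝ) ^ 3)⁻¹ ≤ 1 / 2 := by
  classical
  have hx : 0 < x := Nat.pos_of_ne_zero (NeZero.ne x)
  have hmaps : ∀ h ∈ (univ : Finset (ZMod x)).erase 0, addOrderOf h ∈ Icc 3 (x + 2) := by
    intro h hh
    rw [mem_erase] at hh
    have h1 : addOrderOf h ∣ x := by
      have := addOrderOf_dvd_card (x := h)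
      rwa [ZMod.card] at this
    have h2 : addOrderOf h ≠ 1 := fun h3 => hh.1 (AddMonoid.addOrderOf_eq_one_iff.1 h3)
    have h3 : 0 < addOrderOf h := Nat.pos_of_dvd_of_pos h1 hx
    rw [mem_Icc]
    exact ⟨hq _ h1 (by omega), le_trans (Nat.le_of_dvd hx h1) (by omega)⟩
  rw [← Finset.sum_fiberwise_of_maps_to hmaps]
  have h1 : ∀ q ∈ Icc 3 (x + 2), ∑ h ∈ ((univ : Finset (ZMod x)).erase 0).filter
      (fun h => addOrderOf h = q), ((addOrderOf h : ℝ) ^ 3)⁻¹ ≤ (q : ℝ) * ((q : ℝ) ^ 3)⁻¹ := by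
    intro q hq'
    rw [mem_Icc] at hq'
    have h2 : ∑ h ∈ ((univ : Finset (ZMod x)).erase 0).filter
      (fun h => addOrderOf h = q), ((addOrderOf h : ℝ) ^ 3)⁻¹ =
      ∑ h ∈ ((univ : Finset (ZMod x)).erase 0).filter
      (fun h => addOrderOf h = q), ((q : ℝ) ^ 3)⁻¹ := by
      apply Finset.sum_congr rfl
      intro h hh
      rw [(mem_filter.1 hh).2]
    rw [h2, Finset.sum_const, nsmul_eq_mul]
    apply mul_le_mul_of_nonneg_right _ (by positivity)
    exact_mod_cast sumOrder_card _ q (by omega)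
  refine le_trans (Finset.sum_le_sum h1) (le_trans (sumOrder_tel (x + 2) (by omega)) ?_)
  have h3 : (0 : ℝ) ≤ 1 / ((x + 2 : ℕ) : ℝ) := by positivity
  linarith

end Pool.Agent.Lib.MP_9dd88f_nt
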