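import Mathlib
import Pool.Agent.Lib.MP_9dd88f_nt.DE.Defs
import Pool.Agent.Lib.MP_9dd88f_nt.DE.Bilin
import Pool.Agent.Lib.MP_9dd88f_nt.DE.ExistsZeroSum
import Pool.Agent.Lib.MP_9dd88f_nt.DE.SumOrder

/-!
# DE4: solving `x * a = sum of 2 ^ i * D i`
-/

namespace Pool.Agent.Lib.MP_9dd88f_nt

open Finset Filter

private theorem solve12_order {x : ℕ} [NeZero x] (hx : Odd x) (h : ZMod x) (i : ℕ) :
    addOrderOf (h * (2 : ZMod x) ^ i) = addOrderOf h := by
  have h2 : IsUnit (2 : ZMod x) := by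
    have : IsUnit ((2 : ℕ) : ZMod x) :=
      (ZMod.isUnit_iff_coprime 2 x).mpr (Nat.coprime_two_left.mpr hx)
    simpa using this
  have h3 : IsUnit ((2 : ZMod x) ^ i) := h2.pow i
  apply Nat.dvd_antisymm
  · rw [addOrderOf_dvd_iff_nsmul_eq_zero, ← smul_mul_assoc, addOrderOf_nsmul_eq_zero, zero_mul]
  · rw [addOrderOf_dvd_iff_nsmul_eq_zero]
    have h4 : addOrderOf (h * (2 : ZMod x) ^ i) • h * (2 : ZMod x) ^ i = 0 := by
      rw [smul_mul_assoc, addOrderOf_nsmul_eq_zero]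
    exact (h3.mul_left_eq_zero).mp h4

private theorem solve12_norm (N q c s : ℝ) (hq : 0 < q) (hc0 : 0 ≤ c) (hs : 0 ≤ s)
    (hc : c ≤ s * q ^ (-(3 / 4) : ℝ)) (h : N ^ 2 ≤ q * c ^ 2) : N ≤ s * q ^ (-(1 / 4) : ℝ) := by
  have h1 : N ^ 2 ≤ (s * q ^ (-(1 / 4) : ℝ)) ^ 2 := by
    calc N ^ 2 ≤ q * c ^ 2 := h
      _ ≤ q * (s * q ^ (-(3 / 4) : ℝ)) ^ 2 := by gcongr
      _ = (s * q ^ (-(1 / 4) : ℝ)) ^ 2 := by
          rw [mul_pow, mul_pow, ← Real.rpow_natCast (q ^ (-(3 / 4) : ℝ)),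
            ← Real.rpow_natCast (q ^ (-(1 / 4) : ℝ)), ← Real.rpow_mul hq.le, ← Real.rpow_mul hq.le]
          have : q * q ^ (-(3 / 4) * ((2 : ℕ) : ℝ) : ℝ) = q ^ (-(1 / 4) * ((2 : ℕ) : ℝ) : ℝ) := by
            conv_lhs => rw [show q * q ^ (-(3 / 4) * ((2 : ℕ) : ℝ) : ℝ) =
              q ^ (1 : ℝ) * q ^ (-(3 / 4) * ((2 : ℕ) : ℝ) : ℝ) by rw [Real.rpow_one]]
            rw [← Real.rpow_add hq]
            congr 1
            norm_num
          linear_combination s ^ 2 * this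
  exact le_of_sq_le_sq h1 (by positivity)

theorem solve12 {t x : ℕ} (u : Fin t → ℕ) (hu : ∀ i, 0 < u i) (hx : Odd x)
    (h : ∀ q, q ∣ x → 1 < q → 3 ≤ q ∧ GoodMod u q) :
    ∃ (a : ℕ) (D : Fin 12 → ℕ), 0 < a ∧ (∀ i, 0 < D i ∧ D i ∣ (∏ i, u i) ^ 2) ∧
      x * a = ∑ i : Fin 12, 2 ^ (i : ℕ) * D i := by
  classical
  have : NeZero x := ⟨by rintro rfl; simp at hx⟩
  have hcard : (Fintype.card (Finset (Fin t) × Finset (Fin t)) : ℝ) = 4 ^ t := by
    rw [Fintype.card_prod, Fintype.card_finset, Fintype.card_fin]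
    push_cast
    rw [← mul_pow]
    norm_num
  have hpos : ∀ S : Finset (Fin t), 0 < sp u S := fun S => Finset.prod_pos (fun i _ => hu i)
  have hkey : ∀ g : ZMod x, g ≠ 0 → ∀ i : ℕ,
      ‖∑ p : Finset (Fin t) × Finset (Fin t),
        ZMod.stdAddChar (g * ((2 ^ i * (sp u p.1 * sp u p.2) : ℕ) : ZMod x))‖ ≤
        4 ^ t * (addOrderOf g : ℝ) ^ (-(1 / 4) : ℝ) := by
    intro g hg i
    have hb := bilin u (g * (2 : ZMod x) ^ i)
    rw [solve12_order hx g i] at hb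
    have hqx : addOrderOf g ∣ x := by
      have := addOrderOf_dvd_card (x := g)
      rwa [ZMod.card] at this
    have hq0 : 0 < addOrderOf g := addOrderOf_pos g
    have hq1 : 1 < addOrderOf g := by
      have : addOrderOf g ≠ 1 := fun hh => hg (AddMonoid.addOrderOf_eq_one_iff.mp hh)
      omega
    have hgood := (h _ hqx hq1).2
    refine solve12_norm _ (addOrderOf g : ℝ) (coll u (addOrderOf g) : ℝ) (4 ^ t)
      (by exact_mod_cast hq0) (Nat.cast_nonneg _) (by positivity) hgood ?_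
    have he : ∀ p : Finset (Fin t) × Finset (Fin t),
        g * ((2 ^ i * (sp u p.1 * sp u p.2) : ℕ) : ZMod x) =
          g * (2 : ZMod x) ^ i * ((sp u p.1 * sp u p.2 : ℕ) : ZMod x) := by
      intro p
      push_cast
      ring
    simp only [he]
    exact hb
  have hlt : ∑ g ∈ (univ : Finset (ZMod x)).erase 0,
      ∏ i : Fin 12, ‖∑ p : Finset (Fin t) × Finset (Fin t),
        ZMod.stdAddChar (g * ((2 ^ (i : ℕ) * (sp u p.1 * sp u p.2) : ℕ) : ZMod x))‖ <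
      (Fintype.card (Finset (Fin t) × Finset (Fin t)) : ℝ) ^ 12 := by
    rw [hcard]
    calc ∑ g ∈ (univ : Finset (ZMod x)).erase 0,
          ∏ i : Fin 12, ‖∑ p : Finset (Fin t) × Finset (Fin t),
            ZMod.stdAddChar (g * ((2 ^ (i : ℕ) * (sp u p.1 * sp u p.2) : ℕ) : ZMod x))‖
        ≤ ∑ g ∈ (univ : Finset (ZMod x)).erase 0,
          ((4 : ℝ) ^ t) ^ 12 * ((addOrderOf g : ℝ) ^ 3)⁻¹ := by
          apply Finset.sum_le_sum
          intro g hg
          have hg0 : g ≠ 0 := (Finset.mem_erase.mp hg).1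
          have hq0 : (0 : ℝ) < addOrderOf g := by exact_mod_cast addOrderOf_pos g
          calc ∏ i : Fin 12, ‖∑ p : Finset (Fin t) × Finset (Fin t),
                ZMod.stdAddChar (g * ((2 ^ (i : ℕ) * (sp u p.1 * sp u p.2) : ℕ) : ZMod x))‖
              ≤ ∏ i : Fin 12, (4 ^ t * (addOrderOf g : ℝ) ^ (-(1 / 4) : ℝ)) :=
                Finset.prod_le_prod (fun _ _ => norm_nonneg _) (fun i _ => hkey g hg0 i)
            _ = ((4 : ℝ) ^ t) ^ 12 * ((addOrderOf g : ℝ) ^ 3)⁻¹ := by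
                rw [Finset.prod_const, Finset.card_univ, Fintype.card_fin, mul_pow,
                  ← Real.rpow_natCast ((addOrderOf g : ℝ) ^ (-(1 / 4) : ℝ)), ← Real.rpow_mul hq0.le,
                  ← Real.rpow_natCast (addOrderOf g : ℝ) 3, ← Real.rpow_neg hq0.le]
                congr 2
                norm_num
      _ = ((4 : ℝ) ^ t) ^ 12 * ∑ g ∈ (univ : Finset (ZMod x)).erase 0,
          ((addOrderOf g : ℝ) ^ 3)⁻¹ := by rw [Finset.mul_sum]
      _ ≤ ((4 : ℝ) ^ t) ^ 12 * (1 / 2) := by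
          gcongr
          exact sum_order (fun q hq hq1 => (h q hq hq1).1)
      _ < ((4 : ℝ) ^ t) ^ 12 := by
          have : (0 : ℝ) < ((4 : ℝ) ^ t) ^ 12 := by positivity
          linarith
  obtain ⟨α, hα⟩ := exists_zero_sum
    (fun (i : Fin 12) (p : Finset (Fin t) × Finset (Fin t)) =>
      ((2 ^ (i : ℕ) * (sp u p.1 * sp u p.2) : ℕ) : ZMod x)) hlt
  have hdvd : x ∣ ∑ i : Fin 12, 2 ^ (i : ℕ) * (sp u (α i).1 * sp u (α i).2) := by
    rw [← ZMod.natCast_eq_zero_iff, Nat.cast_sum]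
    exact hα
  obtain ⟨a, ha⟩ := hdvd
  refine ⟨a, fun i => sp u (α i).1 * sp u (α i).2, ?_, ?_, ha.symm⟩
  · rcases Nat.eq_zero_or_pos a with h0 | h0
    · exfalso
      rw [h0, mul_zero] at ha
      have h5 := Finset.sum_eq_zero_iff.mp ha 0 (Finset.mem_univ _)
      have h6 : 0 < 2 ^ ((0 : Fin 12) : ℕ) * (sp u (α 0).1 * sp u (α 0).2) :=
        Nat.mul_pos (by positivity) (Nat.mul_pos (hpos _) (hpos _))
      omega
    · exact h0
  · intro i
    refine ⟨Nat.mul_pos (hpos _) (hpos _), ?_⟩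
    rw [sq]
    exact Nat.mul_dvd_mul (Finset.prod_dvd_prod_of_subset _ _ _ (Finset.subset_univ _))
      (Finset.prod_dvd_prod_of_subset _ _ _ (Finset.subset_univ _))

end Pool.Agent.Lib.MP_9dd88f_nt
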