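import Mathlib
import Pool.Agent.Lib.MP_9dd88f_nt.Chain
import Pool.Agent.Lib.MP_9dd88f_nt.DE.Defs
import Pool.Agent.Lib.MP_9dd88f_nt.DE.GoodU
import Pool.Agent.Lib.MP_9dd88f_nt.DE.Digits
import Pool.Agent.Lib.MP_9dd88f_nt.DE.Solve12
import Pool.Agent.Lib.MP_9dd88f_nt.DE.ChainBasic
import Pool.Agent.Lib.MP_9dd88f_nt.DE.ChainDigits

/-!
# The choice of all parameters
-/

namespace Pool.Agent.Lib.MP_9dd88f_nt

open Finset Filter

/-- the product of the odd primes up to `σ` -/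
private def oddPrimorial (σ : ℕ) : ℕ := ∏ p ∈ (range (σ + 1)).filter (fun p => p.Prime ∧ p ≠ 2), p

private theorem oddPrimorial_le (σ : ℕ) : oddPrimorial σ ≤ 2 ^ (2 * σ) := by
  have h1 : oddPrimorial σ ∣ primorial σ := by
    apply Finset.prod_dvd_prod_of_subset
    intro p hp
    simp only [mem_filter] at hp ⊢
    exact ⟨hp.1, hp.2.1⟩
  have h2 := Nat.le_of_dvd (primorial_pos σ) h1
  refine h2.trans ((primorial_le_four_pow σ).trans ?_)
  rw [pow_mul]
  norm_num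

private theorem oddPrimorial_odd (σ : ℕ) : Odd (oddPrimorial σ) := by
  rw [← Nat.not_even_iff_odd, even_iff_two_dvd]
  intro h
  obtain ⟨p, hp, h2⟩ := (Nat.prime_two.prime.dvd_finsetProd_iff _).mp h
  rw [mem_filter] at hp
  have := (Nat.prime_dvd_prime_iff_eq Nat.prime_two hp.2.1).mp h2
  exact hp.2.2 this.symm

private theorem oddPrimorial_squarefree (σ : ℕ) : Squarefree (oddPrimorial σ) := by
  refine Finset.squarefree_prod_of_pairwise_isCoprime (fun p hp q hq hpq ↦ ?_) (fun p hp ↦ ?_)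
  · simp only [coe_filter, Set.mem_ofPred_eq] at hp hq
    simp only [← Nat.coprime_iff_isRelPrime]
    exact (Nat.coprime_primes hp.2.1 hq.2.1).mpr hpq
  · simp only [mem_filter] at hp
    exact hp.2.1.prime.squarefree

private theorem dvd_oddPrimorial {σ p : ℕ} (hp : p.Prime) (h2 : p ≠ 2) (hle : p ≤ σ) :
    p ∣ oddPrimorial σ := by
  apply Finset.dvd_prod_of_mem (fun p => p)
  rw [mem_filter, mem_range]
  exact ⟨by omega, hp, h2⟩

open Classical in
/-- bad moduli, together with the `u i` -/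
private noncomputable def badSet {t : ℕ} (u : Fin t → ℕ) (σ X : ℕ) : Finset ℕ :=
  (Icc σ X).filter (fun q => (∀ i, (u i).Coprime q) ∧ ¬ GoodMod u q) ∪ univ.image u

/-- a clean number is a sum of 12 good terms -/
private theorem solve_clean {t σ X x : ℕ} (u : Fin t → ℕ) (hu : ∀ i, (u i).Prime) (hσ : 3 ≤ σ)
    (hxX : x ≤ X) (hx : Clean (oddPrimorial σ) (badSet u σ X) x) :
    ∃ (a : ℕ) (D : Fin 12 → ℕ), 0 < a ∧ (∀ i, 0 < D i ∧ D i ∣ (∏ i, u i) ^ 2) ∧
      x * a = ∑ i : Fin 12, 2 ^ (i : ℕ) * D i := by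
  classical
  obtain ⟨hodd, hcop, hbad⟩ := hx
  have hx0 : 0 < x := hodd.pos
  apply solve12 u (fun i => (hu i).pos) hodd
  intro q hqx hq1
  -- all prime factors of `q` exceed `σ`
  have hqσ : σ < q := by
    have hp := Nat.minFac_prime (n := q) (by omega)
    have hpq := Nat.minFac_dvd q
    have hpx := hpq.trans hqx
    have hp2 : q.minFac ≠ 2 := by
      intro h
      rw [h] at hpx
      exact (Nat.not_even_iff_odd.mpr hodd) (even_iff_two_dvd.mpr hpx)
    by_contra hle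
    have hple : q.minFac ≤ σ := (Nat.minFac_le (by omega)).trans (by omega)
    have hd := dvd_oddPrimorial hp hp2 hple
    have := Nat.dvd_gcd hpx hd
    rw [Nat.Coprime.gcd_eq_one hcop] at this
    exact hp.one_lt.ne' (Nat.dvd_one.mp this)
  have hqX : q ≤ X := (Nat.le_of_dvd hx0 hqx).trans hxX
  refine ⟨by omega, ?_⟩
  by_contra hgood
  apply hbad q _ hqx
  rw [badSet, mem_union]
  left
  rw [mem_filter, mem_Icc]
  refine ⟨⟨hqσ.le, hqX⟩, fun i => ?_, hgood⟩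
  rw [(hu i).coprime_iff_not_dvd]
  intro h
  apply hbad (u i) _ (h.trans hqx)
  rw [badSet, mem_union]
  right
  exact mem_image_of_mem u (mem_univ i)

open Classical in
private theorem bad_sum {t σ X Z : ℕ} (u : Fin t → ℕ) (hu : ∀ i, 64 * t < u i)
    (ht : 64 * t ≤ Z) (hZ : 0 < Z)
    (h : ∑ q ∈ (Icc σ X).filter (fun q => (∀ i, (u i).Coprime q) ∧ ¬ GoodMod u q),
      ((Z : ℝ) / q + 1) ≤ (Z : ℝ) / 4) :
    ∑ q ∈ badSet u σ X, ((Z : ℝ) / q + 1) < (Z : ℝ) / 2 := by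
  have hnn : ∀ q : ℕ, 0 ≤ (Z : ℝ) / q + 1 := fun q => by positivity
  have h1 : ∑ q ∈ badSet u σ X, ((Z : ℝ) / q + 1) ≤
      ∑ q ∈ (Icc σ X).filter (fun q => (∀ i, (u i).Coprime q) ∧ ¬ GoodMod u q),
      ((Z : ℝ) / q + 1) + ∑ q ∈ univ.image u, ((Z : ℝ) / q + 1) := by
    rw [badSet, ← Finset.sum_union_inter]
    exact le_add_of_nonneg_right (Finset.sum_nonneg fun q _ => hnn q)
  have h2 : ∑ q ∈ univ.image u, ((Z : ℝ) / q + 1) ≤ ∑ i, ((Z : ℝ) / u i + 1) :=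
    Finset.sum_image_le_of_nonneg (fun q _ => hnn q)
  have h3 : ∑ i, ((Z : ℝ) / u i + 1) ≤ ∑ i : Fin t, ((Z : ℝ) / (64 * t) + 1) := by
    apply Finset.sum_le_sum
    intro i _
    have h4 : (64 * t : ℝ) ≤ u i := by exact_mod_cast (hu i).le
    have h5 : 0 < t := by
      have := i.2
      omega
    have h6 : (0 : ℝ) < 64 * t := by positivity
    gcongr
  rw [Finset.sum_const, Finset.card_univ, Fintype.card_fin, nsmul_eq_mul] at h3
  have hZr : (0 : ℝ) < Z := by exact_mod_cast hZ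
  have h7 : (t : ℝ) * ((Z : ℝ) / (64 * t) + 1) ≤ Z / 64 + Z / 64 := by
    have htr : (64 * t : ℝ) ≤ Z := by exact_mod_cast ht
    rcases Nat.eq_zero_or_pos t with h0 | h0
    · subst h0
      simp
      positivity
    · have h8 : (0 : ℝ) < t := by exact_mod_cast h0
      have h9 : (t : ℝ) * ((Z : ℝ) / (64 * t) + 1) = Z / 64 + t := by
        field_simp
      rw [h9]
      linarith
  linarith

private theorem lin_le_pow {l : ℕ} (h : 30 ≤ l) : 45030 * (l + 14) ≤ 2 ^ l := by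
  induction l, h using Nat.le_induction with
  | base => norm_num
  | succ n hn ih =>
    rw [pow_succ]
    omega

private theorem exists_b (w X M : ℕ) (hw : Even w) (hM : Odd M) :
    ∃ b n, M * b = w + n ∧ X < n ∧ n ≤ X + 2 * M ∧ Odd n := by
  have hM0 : 0 < M := hM.pos
  set q := (w + X) / M with hq
  have h1 : M * q ≤ w + X := Nat.mul_div_le _ _
  have h2 : w + X < M * (q + 1) := by
    have h5 := Nat.div_add_mod (w + X) M
    have h6 := Nat.mod_lt (w + X) hM0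
    rw [mul_add, mul_one]
    rw [← hq] at h5
    omega
  have h3 : M * (q + 1) = M * q + M := by ring
  have h4 : M * (q + 2) = M * q + 2 * M := by ring
  rcases Nat.even_or_odd (q + 1) with he | ho
  · refine ⟨q + 2, M * (q + 2) - w, by omega, by omega, by omega, ?_⟩
    have hodd : Odd (M * (q + 2)) := hM.mul (Even.add_one he)
    rw [Nat.odd_sub (by omega)]
    exact iff_of_true hodd hw
  · refine ⟨q + 1, M * (q + 1) - w, by omega, by omega, by omega, ?_⟩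
    have hodd : Odd (M * (q + 1)) := hM.mul ho
    rw [Nat.odd_sub (by omega)]
    exact iff_of_true hodd hw

private theorem size_M {σ t l M2 Me : ℕ} (ht : t = 2500 * σ) (htpow : t ≤ 2 ^ (l + 13))
    (hM2le : M2 ≤ (t ^ 9) ^ t) (hMele : Me ≤ (t ^ 9) ^ σ) :
    M2 ^ 2 * Me ≤ 2 ^ (45009 * σ * (l + 13)) := by
  calc M2 ^ 2 * Me ≤ ((t ^ 9) ^ t) ^ 2 * (t ^ 9) ^ σ :=
        Nat.mul_le_mul (Nat.pow_le_pow_left hM2le 2) hMele
    _ = t ^ (45009 * σ) := by
      rw [← pow_mul, ← pow_mul, ← pow_mul, ← pow_add, ht]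
      congr 1
      ring
    _ ≤ (2 ^ (l + 13)) ^ (45009 * σ) := Nat.pow_le_pow_left htpow _
    _ = 2 ^ (45009 * σ * (l + 13)) := by
      rw [← pow_mul]
      congr 1
      ring

private theorem four_sq_le {σ l : ℕ} (hσl : σ < 2 ^ (l + 1)) :
    4 * σ * σ ≤ 4 * 2 ^ (2 * l + 2) := by
  have h1 : 2 ^ (2 * l + 2) = 2 ^ (l + 1) * 2 ^ (l + 1) := by
    rw [← pow_add]
    congr 1
    ring
  rw [h1, mul_assoc]
  exact Nat.mul_le_mul_left _ (Nat.mul_le_mul hσl.le hσl.le)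

private theorem G_le {σ l : ℕ} (hlin : 45030 * (l + 14) ≤ σ) :
    45009 * σ * (l + 13) + 2 ≤ 4 * σ * σ := by
  have h1 : 45009 * (l + 13) + 1 ≤ 4 * σ := by omega
  have h2 : 2 ≤ σ := by omega
  calc 45009 * σ * (l + 13) + 2 ≤ 45009 * σ * (l + 13) + σ := Nat.add_le_add_left h2 _
    _ = σ * (45009 * (l + 13) + 1) := by ring
    _ ≤ σ * (4 * σ) := Nat.mul_le_mul_left _ h1
    _ = 4 * σ * σ := by ring

private theorem L_le {σ l L : ℕ} (hσ : 3 ≤ σ) (h : 57 * σ * L ≤ 45009 * σ * (l + 13) + 2) :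
    L ≤ 790 * (l + 13) := by
  by_contra hcon
  push Not at hcon
  have h1 : 57 * σ * (790 * (l + 13) + 1) ≤ 57 * σ * L := Nat.mul_le_mul_left _ hcon
  have h2 : 57 * σ * (790 * (l + 13) + 1) =
      45009 * σ * (l + 13) + (21 * σ * (l + 13) + 57 * σ) := by ring
  omega

private theorem L_dvd {σ l L : ℕ} (hlin : 45030 * (l + 14) ≤ σ) (hL : L ≤ 790 * (l + 13)) :
    57 * σ * (L + 1) ≤ 4 * σ * σ := by
  have h2 : 57 * (L + 1) ≤ 4 * σ := by omega
  calc 57 * σ * (L + 1) = σ * (57 * (L + 1)) := by ring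
    _ ≤ σ * (4 * σ) := Nat.mul_le_mul_left _ h2
    _ = 4 * σ * σ := by ring

open Classical in
private theorem main_core {σ t l : ℕ} (ht : t = 2500 * σ) (hl2000 : 2000 ≤ l)
    (hσl : σ < 2 ^ (l + 1)) (hlin : 45030 * (l + 14) ≤ σ) (u : Fin t → ℕ) (Me : ℕ)
    (hu : ∀ i, (u i).Prime ∧ 64 * t < u i ∧ u i ≤ t ^ 9) (hMeodd : Odd Me)
    (hMele : Me ≤ (t ^ 9) ^ σ) (hMediv : 2 ^ σ ≤ Me.divisors.card)
    (hgood : ∑ q ∈ (Icc σ (2 ^ (1000 * σ))).filter
      (fun q => (∀ i, (u i).Coprime q) ∧ ¬ GoodMod u q),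
      (((2 ^ (940 * σ) : ℕ) : ℝ) / q + 1) ≤ ((2 ^ (940 * σ) : ℕ) : ℝ) / 4) :
    ∃ k M, k ≤ 9600 * l ∧ 2 ≤ M ∧ Chain k M ∧ 2 ^ σ ≤ M.divisors.card := by
  have hσ3 : 3 ≤ σ := by omega
  set X := 2 ^ (1000 * σ) with hX
  set Z := 2 ^ (940 * σ) with hZ
  set P := oddPrimorial σ with hP
  set M2 := ∏ i, u i with hM2
  have hM2odd : Odd M2 := by
    rw [← Nat.not_even_iff_odd, even_iff_two_dvd]
    intro h
    obtain ⟨i, -, h2⟩ := (Nat.prime_two.prime.dvd_finsetProd_iff _).mp h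
    have := (Nat.prime_dvd_prime_iff_eq Nat.prime_two (hu i).1).mp h2
    have := (hu i).2.1
    omega
  have htpow : t ≤ 2 ^ (l + 13) := by
    have : 2 ^ (l + 13) = 4096 * 2 ^ (l + 1) := by
      rw [show l + 13 = 12 + (l + 1) by ring, pow_add]
      norm_num
    omega
  have hModd : Odd (M2 ^ 2 * Me) := (hM2odd.pow).mul hMeodd
  have hM2le : M2 ≤ (t ^ 9) ^ t := by
    calc M2 ≤ ∏ i : Fin t, t ^ 9 := Finset.prod_le_prod' fun i _ => (hu i).2.2
      _ = (t ^ 9) ^ t := by rw [Finset.prod_const, Finset.card_univ, Fintype.card_fin]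
  have hMle := size_M ht htpow hM2le hMele
  have hXle : X ≤ 2 ^ (45009 * σ * (l + 13)) := by
    rw [hX]
    apply Nat.pow_le_pow_right (by norm_num)
    calc 1000 * σ = 1000 * σ * 1 := by ring
      _ ≤ 45009 * σ * (l + 13) := Nat.mul_le_mul (by omega) (by omega)
  -- the starting chain
  have hwchain := chain_pow (2 * l + 2)
  have h16 : 16 ^ (2 ^ (2 * l + 2)) = 2 ^ (4 * 2 ^ (2 * l + 2)) := by
    rw [show (16 : ℕ) = 2 ^ 4 by norm_num, ← pow_mul]
  rw [h16] at hwchain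
  have h2i := four_sq_le hσl
  have hGi := (G_le hlin).trans h2i
  generalize 4 * 2 ^ (2 * l + 2) = E at hwchain h2i hGi
  have hE : 1 ≤ E := by
    have : 1 ≤ 4 * σ * σ := Nat.mul_pos (by omega) (by omega)
    omega
  have hy2 : 2 ≤ 2 ^ E := by
    calc 2 = 2 ^ 1 := by norm_num
      _ ≤ 2 ^ E := Nat.pow_le_pow_right (by norm_num) hE
  have hwge : 2 ^ E ≤ 2 ^ E * (2 ^ E - 1) := Nat.le_mul_of_pos_right _ (by omega)
  have hEdvd : 2 ^ E ∣ 2 ^ E * (2 ^ E - 1) := Dvd.intro _ rfl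
  generalize 2 ^ E * (2 ^ E - 1) = w at hwchain hwge hEdvd
  have hwpos : 0 < w := by omega
  have hweven : Even w := by
    rw [even_iff_two_dvd]
    exact (dvd_pow_self 2 (by omega)).trans hEdvd
  obtain ⟨b, n, hMb, hXn, hnle, hnodd⟩ := exists_b w X (M2 ^ 2 * Me) hweven hModd
  have hn2 : n ≤ 2 ^ (45009 * σ * (l + 13) + 2) := by
    rw [pow_add]
    omega
  have hnw : n ≤ w := hn2.trans ((Nat.pow_le_pow_right (by norm_num) hGi).trans hwge)
  -- digits
  have hbad : ∑ q ∈ badSet u σ X, ((Z : ℝ) / q + 1) < (Z : ℝ) / 2 := by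
    apply bad_sum u (fun i => (hu i).2.1) _ (by positivity) hgood
    calc 64 * t ≤ 2 ^ 6 * 2 ^ (l + 13) := by
          have : (64 : ℕ) = 2 ^ 6 := by norm_num
          omega
      _ = 2 ^ (6 + (l + 13)) := (pow_add _ _ _).symm
      _ ≤ Z := by
        rw [hZ]
        apply Nat.pow_le_pow_right (by norm_num)
        omega
  have hβX : 2 * 2 ^ (57 * σ) * P * Z ≤ X := by
    calc 2 * 2 ^ (57 * σ) * P * Z ≤ 2 ^ 1 * 2 ^ (57 * σ) * 2 ^ (2 * σ) * 2 ^ (940 * σ) := by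
          rw [pow_one]
          exact Nat.mul_le_mul_right _ (Nat.mul_le_mul_left _ (oddPrimorial_le σ))
      _ = 2 ^ (1 + 57 * σ + 2 * σ + 940 * σ) := by rw [← pow_add, ← pow_add, ← pow_add]
      _ ≤ X := by
        rw [hX]
        apply Nat.pow_le_pow_right (by norm_num)
        omega
  obtain ⟨L, x, hx, hnx, hLn⟩ := digits (57 * σ) P Z X n (badSet u σ X) (oddPrimorial_odd σ)
    (oddPrimorial_squarefree σ) (by omega) hβX hnodd hXn hbad
  have hL : L ≤ 790 * (l + 13) := by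
    apply L_le hσ3
    rw [← pow_mul] at hLn
    exact (Nat.pow_le_pow_iff_right (by norm_num : 1 < 2)).mp (hLn.trans hn2)
  -- representation of the digits
  have hsol : ∀ j, ∃ (a : ℕ) (D : Fin 12 → ℕ), j ≤ L → (0 < a ∧
      (∀ i, 0 < D i ∧ D i ∣ M2 ^ 2) ∧ x j * a = ∑ i : Fin 12, 2 ^ (i : ℕ) * D i) := by
    intro j
    by_cases hj : j ≤ L
    · obtain ⟨a, D, h⟩ := solve_clean u (fun i => (hu i).1) hσ3 (hx j hj).1 (hx j hj).2
      exact ⟨a, D, fun _ => h⟩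
    · exact ⟨0, fun _ => 0, fun h => absurd h hj⟩
  choose a D hsol using hsol
  have hwdvd : 2 ^ (57 * σ * (L + 1)) ∣ w :=
    (pow_dvd_pow 2 ((L_dvd hlin hL).trans h2i)).trans hEdvd
  obtain ⟨N, hN0, hMeN, hchain⟩ := chain_digits hwchain x a D (by omega : 12 ≤ 57 * σ) hwdvd hwpos
    hM2odd hMeodd hMb (by omega) hnw hnx (fun j hj => (hx j hj).2.1)
    (fun j hj => (hsol j hj).2.1) (fun j hj => (hsol j hj).2.2)
  have hcard : 2 ^ σ ≤ N.divisors.card :=
    hMediv.trans (Finset.card_le_card (Nat.divisors_subset_of_dvd hN0.ne' hMeN))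
  refine ⟨_, N, ?_, ?_, hchain, hcard⟩
  · omega
  · by_contra hcon
    have hN1 : N = 1 := by omega
    rw [hN1] at hcard
    simp only [Nat.divisors_one, card_singleton] at hcard
    have : 2 ^ 1 ≤ 2 ^ σ := Nat.pow_le_pow_right (by norm_num) (by omega)
    omega

theorem main_chain : ∀ᶠ σ : ℕ in atTop, ∃ k M, k ≤ 9600 * Nat.log 2 σ ∧ 2 ≤ M ∧ Chain k M ∧
    2 ^ σ ≤ M.divisors.card := by
  filter_upwards [good_u, eventually_ge_atTop (2 ^ 2000)] with σ hu hσ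
  obtain ⟨u, Me, hu, hMeodd, hMele, hMediv, hgood⟩ := hu
  have hl2000 : 2000 ≤ Nat.log 2 σ := by
    have h1 : Nat.log 2 (2 ^ 2000) ≤ Nat.log 2 σ := Nat.log_mono_right hσ
    rwa [Nat.log_pow (by norm_num)] at h1
  have hσ0 : σ ≠ 0 := by
    rintro rfl
    simp at hl2000
  have hlσ : 2 ^ Nat.log 2 σ ≤ σ := Nat.pow_log_le_self 2 hσ0
  exact main_core rfl hl2000 (Nat.lt_pow_succ_log_self (by norm_num) σ)
    ((lin_le_pow (by omega)).trans hlσ) u Me hu hMeodd hMele hMediv hgood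

end Pool.Agent.Lib.MP_9dd88f_nt
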