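import Mathlib
import Pool.Agent.Lib.MP_9dd88f_nt.Chain
import Pool.Agent.Lib.MP_9dd88f_nt.DE.MainChain

/-!
# The lower bound `F k ≥ exp (exp (k / 15000))`
-/

namespace Pool.Agent.Lib.MP_9dd88f_nt

open Finset Filter

private theorem extend_chain {k0 M : ℕ} (h : Chain k0 M) (hM : 2 ≤ M) (j : ℕ) :
    ∃ M', Chain (k0 + j) M' ∧ 2 ≤ M' ∧ M ∣ M' := by
  induction j with
  | zero => exact ⟨M, h, hM, dvd_rfl⟩
  | succ j ih =>
    obtain ⟨M', h1, h2, h3⟩ := ih
    refine ⟨M' * (M' + 1), chain_extend h1 h2, ?_, h3.mul_right _⟩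
    nlinarith

private theorem exp_exp_bound {k r : ℕ} (hr : 40 ≤ r) (hk : k ≤ 9600 * r + 9601) :
    Real.exp (Real.exp ((k : ℝ) / 15000)) ≤ ((2 ^ 2 ^ r : ℕ) : ℝ) - 1 := by
  have hlog2 : (0.693 : ℝ) < Real.log 2 := by
    have := Real.log_two_gt_d9
    linarith
  have hlog2' : Real.log 2 < (0.694 : ℝ) := by
    have := Real.log_two_lt_d9
    linarith
  have hkr : (k : ℝ) ≤ 9600 * r + 9601 := by exact_mod_cast hk
  have hrr : (40 : ℝ) ≤ r := by exact_mod_cast hr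
  have h1 : Real.exp ((k : ℝ) / 15000) ≤ 2 ^ r / 4 := by
    have h2 : (k : ℝ) / 15000 ≤ r * Real.log 2 - 2 * Real.log 2 := by
      rw [div_le_iff₀ (by norm_num)]
      nlinarith
    calc Real.exp ((k : ℝ) / 15000) ≤ Real.exp (r * Real.log 2 - 2 * Real.log 2) :=
          Real.exp_le_exp.mpr h2
      _ = 2 ^ r / 4 := by
          rw [Real.exp_sub, mul_comm (r : ℝ), Real.exp_mul, Real.exp_log (by norm_num),
            Real.rpow_natCast, mul_comm 2, Real.exp_mul, Real.exp_log (by norm_num)]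
          norm_num
  have h2 : (2 : ℝ) ≤ 2 ^ r := by
    calc (2 : ℝ) = 2 ^ 1 := by norm_num
      _ ≤ 2 ^ r := pow_le_pow_right₀ (by norm_num) (by omega)
  have h3 : Real.exp ((k : ℝ) / 15000) ≤ 2 ^ r * Real.log 2 - Real.log 2 := by
    refine h1.trans ?_
    nlinarith
  have h4 : Real.exp (Real.exp ((k : ℝ) / 15000)) ≤ 2 ^ (2 ^ r) / 2 := by
    calc Real.exp (Real.exp ((k : ℝ) / 15000)) ≤ Real.exp (2 ^ r * Real.log 2 - Real.log 2) :=
          Real.exp_le_exp.mpr h3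
      _ = 2 ^ (2 ^ r) / 2 := by
          rw [Real.exp_sub, Real.exp_log (by norm_num), mul_comm, Real.exp_mul,
            Real.exp_log (by norm_num)]
          congr 1
          have h5 : ((2 : ℝ) ^ r) = ((2 ^ r : ℕ) : ℝ) := by push_cast; rfl
          rw [h5, Real.rpow_natCast]
  have h6 : (2 : ℝ) ≤ 2 ^ (2 ^ r) := by
    calc (2 : ℝ) = 2 ^ 1 := by norm_num
      _ ≤ 2 ^ (2 ^ r) := pow_le_pow_right₀ (by norm_num) Nat.one_le_two_pow
  push_cast
  linarith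

theorem lower_bound : ∀ᶠ k : ℕ in atTop, Real.exp (Real.exp (k / 15000)) ≤ (F k : ℝ) := by
  obtain ⟨σ0, hσ0⟩ := main_chain.exists_forall_of_atTop
  filter_upwards [eventually_ge_atTop (9600 * (σ0 + 41) + 2)] with k hk
  set r := (k - 2) / 9600 with hr
  have h1 : 9600 * r ≤ k - 2 := Nat.mul_div_le _ _
  have h2 : k - 2 < 9600 * (r + 1) := by
    have h5 := Nat.div_add_mod (k - 2) 9600
    have h6 := Nat.mod_lt (k - 2) (by norm_num : 9600 > 0)
    omega
  have hrσ : σ0 + 41 ≤ r := by omega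
  have hσ : σ0 ≤ 2 ^ r := by
    have := Nat.lt_two_pow_self (n := r)
    omega
  obtain ⟨k0, M, hk0, hM2, hchain, hcard⟩ := hσ0 (2 ^ r) hσ
  rw [Nat.log_pow (by norm_num)] at hk0
  obtain ⟨M', hchain', hM2', hdvd⟩ := extend_chain hchain hM2 (k - 2 - k0)
  have e1 : k0 + (k - 2 - k0) = k - 2 := by omega
  rw [e1] at hchain'
  have h3 := chain_card hchain' (by omega)
  have e2 : k - 2 + 2 = k := by omega
  rw [e2] at h3
  have h4 : 2 ^ 2 ^ r ≤ F k + 1 :=
    hcard.trans ((Finset.card_le_card (Nat.divisors_subset_of_dvd (by omega) hdvd)).trans h3)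
  have h5 : ((2 ^ 2 ^ r : ℕ) : ℝ) - 1 ≤ F k := by
    have : ((2 ^ 2 ^ r : ℕ) : ℝ) ≤ ((F k + 1 : ℕ) : ℝ) := by exact_mod_cast h4
    push_cast at this ⊢
    linarith
  exact (exp_exp_bound (by omega) (by omega)).trans h5

end Pool.Agent.Lib.MP_9dd88f_nt
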